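import Pool.Agent.KS6_71.PC.Strong

/-!
# Bounds on the palindromic complexity
-/

open Finset

namespace Pool.Agent.KS6_71.PC

variable {A : Type*}

lemma PC_zero {L : Set (List A)} (hL : IsLanguage L) : PC L 0 = 1 := by
  unfold PC
  rw [Set.ncard_eq_one]
  refine ⟨[], ?_⟩
  ext w
  simp only [Set.mem_ofPred_eq, Set.mem_singleton_iff]
  constructor
  · rintro ⟨_, h, _⟩
    exact List.length_eq_zero_iff.1 h
  · rintro rfl
    exact ⟨hL.nil, rfl, rfl⟩

lemma PC_one [Fintype A] {L : Set (List A)} (hL : IsLanguage L) : PC L 1 = Fintype.card A := by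
  classical
  unfold PC
  have : {w : List A | w ∈ L ∧ w.length = 1 ∧ w.reverse = w} = (fun a : A => [a]) '' Set.univ := by
    ext w
    simp only [Set.mem_ofPred_eq, Set.image_univ, Set.mem_range]
    constructor
    · rintro ⟨_, h, _⟩
      obtain ⟨a, rfl⟩ := List.length_eq_one_iff.1 h
      exact ⟨a, rfl⟩
    · rintro ⟨a, rfl⟩
      exact ⟨hL.letter a, rfl, rfl⟩
  rw [this, Set.ncard_image_of_injective _ (fun a b h => by simpa using h), Set.ncard_univ,
    Nat.card_eq_fintype_card]

/-- known upper bounds -/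
theorem PC_upper [LinearOrder A] [Fintype A] {L : Set (List A)} (hL : IsLanguage L)
    (hA : Anti L) (n : ℕ) : PC L (2 * n) ≤ 1 ∧ PC L (2 * n + 1) ≤ Fintype.card A := by
  induction n with
  | zero => exact ⟨(PC_zero hL).le, (PC_one hL).le⟩
  | succ n ih =>
    exact ⟨(PC_anti hL hA (2 * n)).trans ih.1, (PC_anti hL hA (2 * n + 1)).trans ih.2⟩

lemma card_pos {L : Set (List A)} [Fintype A] (hL : IsLanguage L) : 0 < Fintype.card A := by
  obtain ⟨a, _⟩ := hL.left [] hL.nil
  exact Fintype.card_pos_iff.2 ⟨a⟩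

/-- In the strongly connected case there are `k + 1` palindromes of lengths `N`, `N + 1`. -/
theorem strong_bound [LinearOrder A] [Fintype A] {L : Set (List A)} (hL : IsLanguage L)
    (hA : Anti L) (hC : NoConn L) {N : ℕ} (hN : 0 < N)
    (hstr : ∀ u v, u ∈ L → u.length = N → v ∈ L → v.length = N → Reach L u v) :
    Fintype.card A + 1 ≤ PC L N + PC L (N + 1) := by
  have hcl : ∀ w ∈ L, w.length ≤ N + 1 → w.reverse ∈ L := fun w hw hwl =>
    closed_of_strong hL hA hN hstr w hw hwl
  have key : ∀ n, n + 1 ≤ N + 1 → Fintype.card A + 1 ≤ PC L n + PC L (n + 1) := by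
    intro n
    induction n with
    | zero => intro _; rw [PC_zero hL, PC_one hL]; omega
    | succ n ih =>
      intro hn
      have h1 := ih (by omega)
      have h2 := PC_mono_of_closed hL hA hC hcl n (by omega)
      rw [show n + 1 + 1 = n + 2 by ring]
      omega
  exact key N le_rfl

/-- **Lower bound.** -/
theorem lower_bound [LinearOrder A] [Fintype A] {L : Set (List A)} (hL : IsLanguage L)
    (hA : Anti L) (hC : NoConn L) (N : ℕ) :
    min (Fintype.card A + 1) 4 ≤ PC L N + PC L (N + 1) := by
  rcases Nat.eq_zero_or_pos N with rfl | hN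
  · rw [PC_zero hL, PC_one hL]
    omega
  by_cases hstr : ∀ u v, u ∈ L → u.length = N → v ∈ L → v.length = N → Reach L u v
  · exact (min_le_left _ _).trans (strong_bound hL hA hC hN hstr)
  · push Not at hstr
    obtain ⟨u, v, hu, hun, hv, hvn, huv⟩ := hstr
    exact (min_le_right _ _).trans (four_palindromes hL hA hN u v hu hun hv hvn huv)

lemma reach_of_word {L : Set (List A)} (hL : IsLanguage L) (N : ℕ) (hN : 0 < N) :
    ∀ (n : ℕ) (w : List A), w ∈ L → w.length = N + n → Reach L (w.take N) (w.drop n) := by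
  intro n
  induction n with
  | zero =>
    intro w _ hwl
    rw [List.take_of_length_le (by omega), List.drop_zero]
  | succ n ih =>
    intro w hw hwl
    rcases List.eq_nil_or_concat' w with rfl | ⟨w', b, rfl⟩
    · simp at hwl
    simp only [List.length_append, List.length_cons, List.length_nil] at hwl
    have hw' : w' ∈ L := hL.init _ _ hw
    have h1 := ih w' hw' (by omega)
    rw [List.take_append_of_le_length (by omega)]
    refine h1.tail ?_
    have e : w' = w'.take n ++ w'.drop n := (List.take_append_drop n w').symm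
    have e2 : w'.drop n ++ [b] ∈ L := by
      apply suffix_mem hL (w'.take n)
      rw [← List.append_assoc, List.take_append_drop]
      exact hw
    rcases hd : w'.drop n with _ | ⟨a, t⟩
    · have := congrArg List.length hd
      rw [List.length_drop] at this
      simp at this
      omega
    refine ⟨a, t, b, rfl, ?_, ?_⟩
    · rw [List.drop_append_of_le_length (by omega)]
      rw [← List.drop_drop, hd]
      rfl
    · rw [hd] at e2
      simpa using e2

theorem strong_of_irreducible {L : Set (List A)} (hL : IsLanguage L) (hI : Irreducible L)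
    {N : ℕ} (hN : 0 < N) (u v : List A) (hu : u ∈ L) (hun : u.length = N) (hv : v ∈ L)
    (hvn : v.length = N) : Reach L u v := by
  obtain ⟨w, hw⟩ := hI u hu v hv
  have h := reach_of_word hL N hN (w.length + N) (u ++ w ++ v) hw (by simp; omega)
  have e1 : (u ++ w ++ v).take N = u := by
    rw [List.append_assoc, List.take_append_of_le_length hun.ge, List.take_of_length_le hun.le]
  have e2 : (u ++ w ++ v).drop (w.length + N) = v := by
    rw [List.drop_append_of_le_length (by simp; omega), List.drop_of_length_le (by simp; omega)]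
    rfl
  rwa [e1, e2] at h

/-- From the hypotheses of Q1 to the linear order formulation. -/
theorem reduce [Fintype A] {L : Set (List A)} (h : Hyp L) :
    ∃ _ : LinearOrder A, Anti L ∧ NoConn L := by
  classical
  obtain ⟨hL, ltA, ltD, hA, hD, hAD, hO, hC⟩ := h
  let _ : LinearOrder A := linearOrderOfSTO ltA
  have hlt : ∀ a b : A, a < b ↔ ltA a b := fun a b => Iff.rfl
  have hAnti : Anti L := by
    intro v x x' y y' h h' hx
    by_contra hy
    push Not at hy
    have hB : Bispecial L v := by
      refine ⟨hL.tail x _ (hL.init _ _ h), ⟨x, x', hx.ne, hL.init _ _ h, hL.init _ _ h'⟩,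
        ⟨y, y', hy.ne, hL.tail x _ h, hL.tail x' _ h'⟩⟩
    have := (hO v hB x x' y y' h h' hx.ne hy.ne).1 ((hlt _ _).1 hx)
    rw [hAD] at this
    exact absurd ((hlt _ _).2 this) (not_lt.2 hy.le)
  refine ⟨inferInstance, hAnti, ?_⟩
  intro w a a' haa' hadj h1 h2
  by_contra hcon
  push Not at hcon
  have hB : Bispecial L w := by
    refine ⟨hL.tail a _ (hL.init _ _ h1), ⟨a, a', haa'.ne, hL.init _ _ h1, hL.init _ _ h2⟩,
      ⟨a, a', haa'.ne, hL.tail a' _ h2, hL.tail a _ h1⟩⟩
  refine hC w hB ⟨a, a', a', a, ⟨(hlt _ _).1 haa', fun c hc => hadj c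
    ⟨(hlt _ _).2 hc.1, (hlt _ _).2 hc.2⟩⟩, ⟨(hAD _ _).2 ((hlt _ _).1 haa'), fun c hc => hadj c
    ⟨(hlt _ _).2 ((hAD _ _).1 hc.2), (hlt _ _).2 ((hAD _ _).1 hc.1)⟩⟩, h1, h2, ?_, ?_⟩
  · exact hcon.1
  · exact hcon.2

/-- **Lower bound**, under the hypotheses of Q1. -/
theorem hyp_lower [Fintype A] {L : Set (List A)} (h : Hyp L) (N : ℕ) :
    min (Fintype.card A + 1) 4 ≤ PC L N + PC L (N + 1) := by
  obtain ⟨_, h1, h2⟩ := reduce h
  exact lower_bound h.1 h1 h2 N

theorem hyp_upper [Fintype A] {L : Set (List A)} (h : Hyp L) (n : ℕ) :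
    PC L (2 * n) ≤ 1 ∧ PC L (2 * n + 1) ≤ Fintype.card A := by
  obtain ⟨_, h1, _⟩ := reduce h
  exact PC_upper h.1 h1 n

theorem hyp_anti [Fintype A] {L : Set (List A)} (h : Hyp L) (n : ℕ) : PC L (n + 2) ≤ PC L n := by
  obtain ⟨_, h1, _⟩ := reduce h
  exact PC_anti h.1 h1 n

/-- The equalities of Q1 at `n`, for all `n`. -/
def Equality [Fintype A] (L : Set (List A)) : Prop :=
  ∀ n, (Even n → PC L n = 1) ∧ (Odd n → PC L n = Fintype.card A)

theorem equality_of_sum [Fintype A] {L : Set (List A)} (h : Hyp L)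
    (hs : ∀ N, Fintype.card A + 1 ≤ PC L N + PC L (N + 1)) : Equality L := by
  intro n
  constructor
  · rintro ⟨m, rfl⟩
    rw [← two_mul]
    have h1 := hs (2 * m)
    have h2 := hyp_upper h m
    omega
  · rintro ⟨m, rfl⟩
    have h1 := hs (2 * m)
    have h2 := hyp_upper h m
    omega

/-- Q1 holds for alphabets with at most three letters. -/
theorem equality_of_card_le_three [Fintype A] {L : Set (List A)} (h : Hyp L)
    (hk : Fintype.card A ≤ 3) : Equality L := by
  apply equality_of_sum h
  intro N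
  have := hyp_lower h N
  omega

/-- Q1 holds for irreducible languages. -/
theorem equality_of_irreducible [Fintype A] {L : Set (List A)} (h : Hyp L)
    (hI : Irreducible L) : Equality L := by
  apply equality_of_sum h
  intro N
  rcases Nat.eq_zero_or_pos N with rfl | hN
  · rw [PC_zero h.1, PC_one h.1]
    omega
  obtain ⟨_, h1, h2⟩ := reduce h
  exact strong_bound h.1 h1 h2 hN fun u v hu hun hv hvn =>
    strong_of_irreducible h.1 hI hN u v hu hun hv hvn

end Pool.Agent.KS6_71.PC
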