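import Pool.Agent.KS6_71.PC.Defs

/-!
# Cyclic words in a language with symmetric order condition are reversible
-/

open Finset

namespace Pool.Agent.KS6_71.PC

variable {A : Type*}

/-- The window of length `n` at `i` of a cyclic word. -/
def W {m : ℕ} (s : ZMod m → A) : ℕ → ZMod m → List A
  | 0, _ => []
  | n + 1, i => s i :: W s n (i + 1)

lemma W_length {m : ℕ} (s : ZMod m → A) (n : ℕ) (i : ZMod m) : (W s n i).length = n := by
  induction n generalizing i with
  | zero => rfl
  | succ n ih => simp [W, ih]

lemma W_succ' {m : ℕ} (s : ZMod m → A) (n : ℕ) (i : ZMod m) :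
    W s (n + 1) i = W s n i ++ [s (i + n)] := by
  induction n generalizing i with
  | zero => simp [W]
  | succ n ih =>
    rw [W, ih, W, List.cons_append]
    congr 4
    push_cast
    ring

/-- the order condition, reformulated -/
def Anti [LinearOrder A] (L : Set (List A)) : Prop :=
  ∀ v x x' y y', x :: v ++ [y] ∈ L → x' :: v ++ [y'] ∈ L → x < x' → y' ≤ y

lemma coupling_aux [LinearOrder A] [Fintype A] (p q : A → A → ℕ)
    (hr : ∀ x, ∑ y, p x y = ∑ y, q x y) (hc : ∀ y, ∑ x, p x y = ∑ x, q x y)
    (hq : ∀ x x' y y', q x y ≠ 0 → q x' y' ≠ 0 → x < x' → y' ≤ y)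
    (x y : A) (hx : ∀ x' y', p x' y' ≠ q x' y' → x ≤ x')
    (hy : ∀ y', p x y' ≠ q x y' → y' ≤ y) (h : q x y < p x y) : False := by
  have h1 : ∃ y', p x y' < q x y' := by
    by_contra hcon
    push Not at hcon
    have := Finset.sum_lt_sum (s := Finset.univ) (f := q x) (g := p x)
      (fun i _ => hcon i) ⟨y, Finset.mem_univ _, h⟩
    rw [hr x] at this
    exact lt_irrefl _ this
  have h2 : ∃ x', p x' y < q x' y := by
    by_contra hcon
    push Not at hcon
    have := Finset.sum_lt_sum (s := Finset.univ) (f := fun x => q x y) (g := fun x => p x y)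
      (fun i _ => hcon i) ⟨x, Finset.mem_univ _, h⟩
    rw [hc y] at this
    exact lt_irrefl _ this
  obtain ⟨y', hy'⟩ := h1
  obtain ⟨x', hx'⟩ := h2
  have e1 : y' ≤ y := hy y' hy'.ne
  have e2 : y' ≠ y := by
    rintro rfl
    omega
  have e3 : x ≤ x' := hx x' y hx'.ne
  have e4 : x ≠ x' := by
    rintro rfl
    omega
  have e5 := hq x x' y' y (by omega) (by omega) (lt_of_le_of_ne e3 e4)
  exact absurd (le_antisymm e1 e5) e2

lemma coupling [LinearOrder A] [Fintype A] (p q : A → A → ℕ)
    (hr : ∀ x, ∑ y, p x y = ∑ y, q x y) (hc : ∀ y, ∑ x, p x y = ∑ x, q x y)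
    (hp : ∀ x x' y y', p x y ≠ 0 → p x' y' ≠ 0 → x < x' → y' ≤ y)
    (hq : ∀ x x' y y', q x y ≠ 0 → q x' y' ≠ 0 → x < x' → y' ≤ y) : p = q := by
  classical
  by_contra hne
  have hne' : ∃ x y, p x y ≠ q x y := by
    by_contra hcon
    push Not at hcon
    exact hne (funext fun x => funext fun y => hcon x y)
  let S : Finset A := Finset.univ.filter fun x => ∃ y, p x y ≠ q x y
  have hS : S.Nonempty := by
    obtain ⟨x, y, hxy⟩ := hne'
    exact ⟨x, by simp only [S, Finset.mem_filter, Finset.mem_univ, true_and]; exact ⟨y, hxy⟩⟩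
  have hxS := S.min'_mem hS
  set x := S.min' hS with hxdef
  have hxmin : ∀ x' y', p x' y' ≠ q x' y' → x ≤ x' := fun x' y' h =>
    S.min'_le x' (by simp only [S, Finset.mem_filter, Finset.mem_univ, true_and]; exact ⟨y', h⟩)
  let T : Finset A := Finset.univ.filter fun y => p x y ≠ q x y
  have hT : T.Nonempty := by
    simp only [S, Finset.mem_filter, Finset.mem_univ, true_and] at hxS
    obtain ⟨y, hy⟩ := hxS
    exact ⟨y, by simpa [T] using hy⟩
  have hyT := T.max'_mem hT
  set y := T.max' hT with hydef
  have hymax : ∀ y', p x y' ≠ q x y' → y' ≤ y := fun y' h => T.le_max' y' (by simpa [T] using h)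
  have hxy : p x y ≠ q x y := by simpa [T] using hyT
  rcases lt_or_gt_of_ne hxy with h | h
  · exact coupling_aux q p (fun x => (hr x).symm) (fun y => (hc y).symm) hp x y
      (fun x' y' h => hxmin x' y' h.symm) (fun y' h => hymax y' h.symm) h
  · exact coupling_aux p q hr hc hq x y hxmin hymax h

open Classical in
/-- the number of occurrences of `u` in the cyclic word -/
noncomputable def occ {m : ℕ} [NeZero m] (s : ZMod m → A) (u : List A) : ℕ :=
  (Finset.univ.filter fun i : ZMod m => W s u.length i = u).card

open Classical in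
lemma occ_right {m : ℕ} [NeZero m] [Fintype A] (s : ZMod m → A) (u : List A) :
    ∑ b, occ s (u ++ [b]) = occ s u := by
  unfold occ
  rw [Finset.card_eq_sum_card_fiberwise (f := fun i => s (i + u.length)) (t := Finset.univ)
    (fun _ _ => Finset.mem_coe.2 (Finset.mem_univ _))]
  refine Finset.sum_congr rfl fun b _ => ?_
  congr 1
  ext i
  simp only [Finset.mem_filter, Finset.mem_univ, true_and, List.length_append,
    List.length_singleton]
  rw [W_succ']
  constructor
  · intro h
    have := List.append_inj' h rfl
    exact ⟨this.1, by simpa using this.2⟩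
  · rintro ⟨h1, h2⟩
    rw [h1, h2]

open Classical in
lemma occ_left {m : ℕ} [NeZero m] [Fintype A] (s : ZMod m → A) (u : List A) :
    ∑ a, occ s (a :: u) = occ s u := by
  unfold occ
  have h0 : (Finset.univ.filter fun i : ZMod m => W s u.length i = u).card =
      (Finset.univ.filter fun i : ZMod m => W s u.length (i + 1) = u).card := by
    refine Finset.card_bij' (fun i _ => i - 1) (fun i _ => i + 1) ?_ ?_ ?_ ?_
    · intro i hi
      simpa using hi
    · intro i hi
      simpa using hi
    · intro i _
      simp
    · intro i _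
      simp
  rw [h0, Finset.card_eq_sum_card_fiberwise (f := fun i => s i) (t := Finset.univ)
    (fun _ _ => Finset.mem_coe.2 (Finset.mem_univ _))]
  refine Finset.sum_congr rfl fun b _ => ?_
  congr 1
  ext i
  simp only [Finset.mem_filter, Finset.mem_univ, true_and, List.length_cons, W,
    List.cons.injEq]
  tauto

lemma W_mem {L : Set (List A)} (hL : IsLanguage L) {m N : ℕ} (s : ZMod m → A)
    (hW : ∀ i, W s N i ∈ L) : ∀ n ≤ N, ∀ i, W s n i ∈ L := by
  have h : ∀ d, ∀ n, n + d = N → ∀ i, W s n i ∈ L := by
    intro d
    induction d with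
    | zero =>
      intro n hn i
      have : n = N := by omega
      subst this
      exact hW i
    | succ d ih =>
      intro n hn i
      have := ih (n + 1) (by omega) i
      rw [W_succ'] at this
      exact hL.init _ _ this
  intro n hn i
  exact h (N - n) n (by omega) i

lemma occ_ne_zero {m : ℕ} [NeZero m] (s : ZMod m → A) (u : List A) :
    occ s u ≠ 0 ↔ ∃ i, W s u.length i = u := by
  classical
  unfold occ
  rw [Finset.card_ne_zero, Finset.Nonempty]
  simp

/-- **Reversibility of cyclic words.** If all windows of length `N` of the cyclic word `s` are in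
the language `L` with the symmetric order condition, every word of length at most `N` occurs in `s`
as often as its reverse. -/
theorem occ_reverse [LinearOrder A] [Fintype A] {L : Set (List A)} (hL : IsLanguage L)
    (hA : Anti L) {m N : ℕ} [NeZero m] (s : ZMod m → A) (hW : ∀ i, W s N i ∈ L) :
    ∀ n ≤ N, ∀ u : List A, u.length = n → occ s u.reverse = occ s u := by
  intro n
  induction n using Nat.strong_induction_on with
  | _ n ih =>
    intro hn u hu
    rcases u with _ | ⟨x, t⟩
    · rfl
    rcases List.eq_nil_or_concat' t with rfl | ⟨v, y, rfl⟩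
    · rfl
    simp only [List.length_cons, List.length_append, List.length_nil] at hu
    have key := coupling (fun x y => occ s (x :: (v ++ [y])))
      (fun x y => occ s (y :: (v.reverse ++ [x]))) ?_ ?_ ?_ ?_
    · have := congrFun (congrFun key x) y
      rw [show occ s (x :: (v ++ [y])) = occ s (y :: (v.reverse ++ [x])) from this]
      congr 1
      simp
    · intro x
      have h1 : ∑ y, occ s (x :: (v ++ [y])) = occ s (x :: v) := by
        have := occ_right s (x :: v)
        simpa using this
      have h2 : ∑ y, occ s (y :: (v.reverse ++ [x])) = occ s (v.reverse ++ [x]) :=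
        occ_left s (v.reverse ++ [x])
      rw [h1, h2]
      have := ih (v.length + 1) (by omega) (by omega) (x :: v) (by simp)
      rw [← this]
      simp
    · intro y
      have h1 : ∑ x, occ s (x :: (v ++ [y])) = occ s (v ++ [y]) := occ_left s (v ++ [y])
      have h2 : ∑ x, occ s (y :: (v.reverse ++ [x])) = occ s (y :: v.reverse) := by
        have := occ_right s (y :: v.reverse)
        simpa using this
      rw [h1, h2]
      have := ih (v.length + 1) (by omega) (by omega) (v ++ [y]) (by simp)
      rw [← this]
      simp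
    · intro x x' y y' h h' hx
      obtain ⟨i, hi⟩ := (occ_ne_zero s _).1 h
      obtain ⟨i', hi'⟩ := (occ_ne_zero s _).1 h'
      have e1 : x :: (v ++ [y]) ∈ L := by
        rw [← hi]
        exact W_mem hL s hW _ (by simp; omega) i
      have e2 : x' :: (v ++ [y']) ∈ L := by
        rw [← hi']
        exact W_mem hL s hW _ (by simp; omega) i'
      exact hA v x x' y y' (by simpa using e1) (by simpa using e2) hx
    · intro x x' y y' h h' hx
      obtain ⟨i, hi⟩ := (occ_ne_zero s _).1 h
      obtain ⟨i', hi'⟩ := (occ_ne_zero s _).1 h'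
      have e1 : y :: (v.reverse ++ [x]) ∈ L := by
        rw [← hi]
        exact W_mem hL s hW _ (by simp; omega) i
      have e2 : y' :: (v.reverse ++ [x']) ∈ L := by
        rw [← hi']
        exact W_mem hL s hW _ (by simp; omega) i'
      by_contra hcon
      push Not at hcon
      have := hA v.reverse y y' x x' (by simpa using e1) (by simpa using e2) hcon
      exact absurd hx (not_lt.2 this)

end Pool.Agent.KS6_71.PC
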