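import Mathlib

/-!
# Languages with a symmetric order condition: definitions

Definitions for `MP_0168d2_co`, in the words of the problem file.
-/

namespace Pool.Agent.KS6_71.PC

variable {A : Type*}

/-- `L` is (the set of all words of) a language on the full alphabet `A`: it contains the empty
word and all letters, it is factorial, and every word of `L` extends in `L` to the left and to the
right by a letter. -/
structure IsLanguage (L : Set (List A)) : Prop where
  nil : [] ∈ L
  letter : ∀ a, [a] ∈ L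
  tail : ∀ a w, a :: w ∈ L → w ∈ L
  init : ∀ w b, w ++ [b] ∈ L → w ∈ L
  left : ∀ w ∈ L, ∃ a, a :: w ∈ L
  right : ∀ w ∈ L, ∃ b, w ++ [b] ∈ L

/-- `w ∈ L` is bispecial: at least two left and at least two right extensions in `L`. -/
def Bispecial (L : Set (List A)) (w : List A) : Prop :=
  w ∈ L ∧ (∃ a a', a ≠ a' ∧ a :: w ∈ L ∧ a' :: w ∈ L) ∧
    ∃ b b', b ≠ b' ∧ w ++ [b] ∈ L ∧ w ++ [b'] ∈ L

/-- The order condition for the pair `(ltA, ltD)`. -/
def OrderCondition (L : Set (List A)) (ltA ltD : A → A → Prop) : Prop :=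
  ∀ v, Bispecial L v → ∀ x x' y y', x :: v ++ [y] ∈ L → x' :: v ++ [y'] ∈ L →
    x ≠ x' → y ≠ y' → (ltA x x' ↔ ltD y y')

/-- `a` and `b` are consecutive for `r`, with `r a b`. -/
def Consecutive (r : A → A → Prop) (a b : A) : Prop := r a b ∧ ∀ c, ¬ (r a c ∧ r c b)

/-- The word `w` has a connection. -/
def Connection (L : Set (List A)) (ltA ltD : A → A → Prop) (w : List A) : Prop :=
  ∃ a a' b b', Consecutive ltA a a' ∧ Consecutive ltD b b' ∧
    a :: w ++ [b] ∈ L ∧ a' :: w ++ [b'] ∈ L ∧ a :: w ++ [b'] ∉ L ∧ a' :: w ++ [b] ∉ L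

/-- Palindromic complexity: the number of palindromes of length `n` in `L`. -/
noncomputable def PC (L : Set (List A)) (n : ℕ) : ℕ :=
  Set.ncard {w | w ∈ L ∧ w.length = n ∧ w.reverse = w}

/-- The hypotheses of Q1: `L` is a language on the alphabet `A`, it satisfies the order condition
for a symmetric pair of strict total orders, and no bispecial word has a connection. -/
def Hyp (L : Set (List A)) : Prop :=
  IsLanguage L ∧ ∃ ltA ltD : A → A → Prop, IsStrictTotalOrder A ltA ∧ IsStrictTotalOrder A ltD ∧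
    (∀ a b, ltD a b ↔ ltA b a) ∧ OrderCondition L ltA ltD ∧
    ∀ w, Bispecial L w → ¬ Connection L ltA ltD w

/-- `L` is irreducible: for all `u`, `v` in `L` some word `u w v` is in `L`. -/
def Irreducible (L : Set (List A)) : Prop := ∀ u ∈ L, ∀ v ∈ L, ∃ w, u ++ w ++ v ∈ L

end Pool.Agent.KS6_71.PC
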