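import Pool.Agent.KS6_71.PC.Bound

/-!
# A family of languages realising all possible pairs
-/

open Finset

namespace Pool.Agent.KS6_71.PC

/-- A criterion for the hypotheses of Q1 on the alphabet `Fin k` with its usual order. -/
theorem hyp_of {k : ℕ} {L : Set (List (Fin k))} (hL : IsLanguage L)
    (hA : Anti L)
    (hC : ∀ w (a a' b b' : Fin k), a.val + 1 = a'.val → b'.val + 1 = b.val →
      a :: w ++ [b] ∈ L → a' :: w ++ [b'] ∈ L → a :: w ++ [b'] ∈ L ∨ a' :: w ++ [b] ∈ L) :
    Hyp L := by
  refine ⟨hL, (· < ·), (fun a b => b < a), inferInstance, inferInstance, fun _ _ => Iff.rfl,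
    ?_, ?_⟩
  · intro v _ x x' y y' h h' hx hy
    constructor
    · intro hlt
      exact lt_of_le_of_ne (hA v x x' y y' h h' hlt) (Ne.symm hy)
    · intro hlt
      rcases lt_or_gt_of_ne hx with h1 | h1
      · exact h1
      · exact absurd hlt (not_lt.2 (hA v x' x y' y h' h h1))
  · rintro w _ ⟨a, a', b, b', ⟨h1, h2⟩, ⟨h3, h4⟩, h5, h6, h7, h8⟩
    have e1 : a.val + 1 = a'.val := by
      by_contra hne
      have hlt : a.val + 1 < a'.val := by
        have : a.val < a'.val := h1
        omega
      refine h2 ⟨a.val + 1, by omega⟩ ⟨?_, ?_⟩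
      · change a.val < a.val + 1
        omega
      · exact hlt
    have e2 : b'.val + 1 = b.val := by
      by_contra hne
      have hlt : b'.val + 1 < b.val := by
        have : b'.val < b.val := h3
        omega
      refine h4 ⟨b'.val + 1, by omega⟩ ⟨?_, ?_⟩
      · exact hlt
      · change b'.val < b'.val + 1
        omega
    rcases hC w a a' b b' e1 e2 h5 h6 with h | h
    · exact h7 h
    · exact h8 h

variable {k : ℕ}

/-- allowed pairs of letters -/
def F (k c j : ℕ) (x y : Fin k) : Prop :=
  (x.val = 0 ∧ c ≤ y.val) ∨ (x.val = 1 ∧ 1 ≤ y.val ∧ y.val ≤ c) ∨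
    (2 ≤ x.val ∧ x.val < j ∧ y.val = 1) ∨ (x.val = j ∧ y.val ≤ 1) ∨ (j < x.val ∧ y.val = 0)

def StartsZero (m : List (Fin k)) : Prop := ∃ z t, m = z :: t ∧ z.val = 0

def EndsZero (m : List (Fin k)) : Prop := ∃ t z, m = t ++ [z] ∧ z.val = 0

/-- The family of languages. -/
def LU (k c j : ℕ) : Set (List (Fin k)) :=
  {w | w.IsChain (F k c j) ∧
    (∀ x m y, x :: m ++ [y] <:+: w → StartsZero m → EndsZero m → x.val + 1 = k ∨ y.val + 1 = k) ∧
    (c = 2 → ∀ x y z, [x, y, z] <:+: w → y.val = 1 → z.val = 1 → x.val = j)}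

lemma LU_infix {c j : ℕ} {u w : List (Fin k)} (h : u <:+: w) (hw : w ∈ LU k c j) :
    u ∈ LU k c j := by
  refine ⟨?_, fun x m y h' => hw.2.1 x m y (h'.trans h),
    fun hc x y z h' => hw.2.2 hc x y z (h'.trans h)⟩
  obtain ⟨s, t, rfl⟩ := h
  exact hw.1.left_of_append.right_of_append

lemma LU_nil {c j : ℕ} : [] ∈ LU k c j :=
  ⟨List.IsChain.nil, fun x m y h => by simp at h, fun _ x y z h => by simp at h⟩

lemma LU_single {c j : ℕ} (a : Fin k) : [a] ∈ LU k c j :=
  ⟨List.IsChain.singleton a, fun x m y h => by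
      have := h.length_le
      simp at this, fun _ x y z h => by
      have := h.length_le
      simp at this⟩

/-- extension to the right -/
lemma LU_right {c j : ℕ} (t : List (Fin k)) (b a : Fin k) (h : t ++ [b] ∈ LU k c j)
    (hF : F k c j b a) (h0 : b.val = 0 → a.val + 1 = k) (h1 : c = 2 → b.val = 1 → a.val ≠ 1) :
    (t ++ [b]) ++ [a] ∈ LU k c j := by
  refine ⟨?_, ?_, ?_⟩
  · rw [List.isChain_append]
    refine ⟨h.1, List.IsChain.singleton _, ?_⟩
    intro x hx y' hy'
    simp only [List.getLast?_append, List.getLast?_singleton, Option.some_or,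
      Option.mem_def, Option.some.injEq, List.head?_cons] at hx hy'
    subst hx
    subst hy'
    exact hF
  · intro x m y hi hs he
    rw [List.infix_concat_iff] at hi
    rcases hi with hi | hi
    · right
      obtain ⟨r, hr⟩ := hi
      have e1 : (r ++ (x :: m)) ++ [y] = (t ++ [b]) ++ [a] := by rw [← hr]; simp
      have e2 := List.append_inj' e1 rfl
      have e3 : y = a := by simpa using e2.2
      obtain ⟨m', z, hm, hz⟩ := he
      rw [hm] at e2
      have e4 : (r ++ (x :: m')) ++ [z] = t ++ [b] := by rw [← e2.1]; simp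
      have e5 := (List.append_inj' e4 rfl).2
      have e6 : z = b := by simpa using e5
      rw [e3]
      exact h0 (by rw [← e6]; exact hz)
    · exact h.2.1 x m y hi hs he
  · intro hc x y z hi hy hz
    rw [List.infix_concat_iff] at hi
    rcases hi with hi | hi
    · exfalso
      obtain ⟨r, hr⟩ := hi
      have e1 : ((r ++ [x]) ++ [y]) ++ [z] = (t ++ [b]) ++ [a] := by rw [← hr]; simp
      have e2 := List.append_inj' e1 rfl
      have e3 : z = a := by simpa using e2.2
      have e4 := (List.append_inj' e2.1 rfl).2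
      have e5 : y = b := by simpa using e4
      exact h1 hc (by rw [← e5]; exact hy) (by rw [← e3]; exact hz)
    · exact h.2.2 hc x y z hi hy hz

/-- extension to the left -/
lemma LU_left {c j : ℕ} (a b : Fin k) (t : List (Fin k)) (h : b :: t ∈ LU k c j)
    (hF : F k c j a b) (h0 : b.val = 0 → a.val + 1 = k)
    (h1 : c = 2 → b.val = 1 → ∀ z s, t = z :: s → z.val = 1 → a.val = j) :
    a :: b :: t ∈ LU k c j := by
  refine ⟨List.IsChain.cons_cons hF h.1, ?_, ?_⟩
  · intro x m y hi hs he
    rw [List.infix_cons_iff] at hi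
    rcases hi with hi | hi
    · left
      rw [List.cons_append, List.cons_prefix_cons] at hi
      obtain ⟨e1, e2⟩ := hi
      obtain ⟨z, m', hm, hz⟩ := hs
      rw [hm, List.cons_append, List.cons_prefix_cons] at e2
      rw [e1]
      exact h0 (by rw [← e2.1]; exact hz)
    · exact h.2.1 x m y hi hs he
  · intro hc x y z hi hy hz
    rw [List.infix_cons_iff] at hi
    rcases hi with hi | hi
    · rw [List.cons_prefix_cons, List.cons_prefix_cons] at hi
      obtain ⟨e1, e2, s, hs⟩ := hi
      rw [e1]
      exact h1 hc (by rw [← e2]; exact hy) z s (by rw [← hs]; rfl) hz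
    · exact h.2.2 hc x y z hi hy hz

lemma LU_lang {c j : ℕ} (hc1 : 1 ≤ c) (hc2 : c ≤ 2) (hcj : c < j) (hjk : j < k) :
    IsLanguage (LU k c j) where
  nil := LU_nil
  letter a := LU_single a
  tail a w h := LU_infix (List.suffix_cons a w).isInfix h
  init w b h := LU_infix (List.prefix_append w [b]).isInfix h
  left w h := by
    rcases w with _ | ⟨b, t⟩
    · exact ⟨⟨0, by omega⟩, LU_single _⟩
    have hb := b.2
    rcases Nat.lt_trichotomy b.val 1 with h0 | h0 | h0
    · refine ⟨⟨k - 1, by omega⟩, LU_left _ _ _ h ?_ ?_ ?_⟩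
      · rcases Nat.lt_or_ge j (k - 1) with h2 | h2
        · exact Or.inr (Or.inr (Or.inr (Or.inr ⟨h2, by omega⟩)))
        · refine Or.inr (Or.inr (Or.inr (Or.inl ⟨?_, by omega⟩)))
          change k - 1 = j
          omega
      · intro _
        change k - 1 + 1 = k
        omega
      · intro _ h2
        omega
    · refine ⟨⟨j, hjk⟩, LU_left _ _ _ h ?_ ?_ ?_⟩
      · exact Or.inr (Or.inr (Or.inr (Or.inl ⟨rfl, by omega⟩)))
      · intro _
        omega
      · intro _ _ _ _ _ _
        rfl
    · refine ⟨⟨0, by omega⟩, LU_left _ _ _ h ?_ ?_ ?_⟩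
      · exact Or.inl ⟨rfl, by omega⟩
      · intro _
        omega
      · intro _ h2
        omega
  right w h := by
    rcases List.eq_nil_or_concat' w with rfl | ⟨t, b, rfl⟩
    · exact ⟨⟨0, by omega⟩, LU_single _⟩
    have hb := b.2
    rcases Nat.lt_trichotomy b.val 1 with h0 | h0 | h0
    · refine ⟨⟨k - 1, by omega⟩, LU_right _ _ _ h ?_ ?_ ?_⟩
      · refine Or.inl ⟨by omega, ?_⟩
        change c ≤ k - 1
        omega
      · intro _
        change k - 1 + 1 = k
        omega
      · intro _ h2
        omega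
    · refine ⟨⟨c, by omega⟩, LU_right _ _ _ h ?_ ?_ ?_⟩
      · exact Or.inr (Or.inl ⟨h0, hc1, le_rfl⟩)
      · intro _
        omega
      · intro h2 _
        change c ≠ 1
        omega
    · rcases Nat.lt_or_ge j b.val with h2 | h2
      · refine ⟨⟨0, by omega⟩, LU_right _ _ _ h ?_ ?_ ?_⟩
        · exact Or.inr (Or.inr (Or.inr (Or.inr ⟨h2, rfl⟩)))
        · intro _
          omega
        · intro _ h3
          omega
      · refine ⟨⟨1, by omega⟩, LU_right _ _ _ h ?_ ?_ ?_⟩
        · rcases eq_or_lt_of_le h2 with h3 | h3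
          · exact Or.inr (Or.inr (Or.inr (Or.inl ⟨h3, le_rfl⟩)))
          · exact Or.inr (Or.inr (Or.inl ⟨h0, h3, rfl⟩))
        · intro _
          omega
        · intro _ h3
          omega

lemma LU_pair {c j : ℕ} (x y : Fin k) : [x, y] ∈ LU k c j ↔ F k c j x y := by
  constructor
  · intro h
    simpa using h.1
  · intro h
    refine ⟨by simpa using h, fun x m y h hs => ?_, fun _ x y z h => ?_⟩
    · have := h.length_le
      obtain ⟨z, t, rfl, _⟩ := hs
      simp at this
    · have := h.length_le
      simp at this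

/-- last letters: a word of `LU` with at least one letter -/
lemma LU_last {c j : ℕ} (s : List (Fin k)) (d y : Fin k) (x : Fin k) (v : List (Fin k))
    (hv : v = s ++ [d]) (h : x :: v ++ [y] ∈ LU k c j) : F k c j d y := by
  rw [← LU_pair]
  refine LU_infix ⟨x :: s, [], ?_⟩ h
  rw [hv]
  simp

lemma LU_first {c j : ℕ} (b : Fin k) (t : List (Fin k)) (x y : Fin k)
    (h : x :: (b :: t) ++ [y] ∈ LU k c j) : F k c j x b := by
  rw [← LU_pair]
  exact LU_infix ⟨[], t ++ [y], by simp⟩ h

/-- After `x 0` with `x` not the last letter, only `0` and the last letter occur. -/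
lemma LU_lock {c j : ℕ} (hcj : c < j) (hjk : j + 1 < k) (x b : Fin k) (hx : x.val + 1 ≠ k)
    (hb : b.val = 0) (t : List (Fin k)) (h : x :: b :: t ∈ LU k c j) :
    ∀ e ∈ b :: t, e.val = 0 ∨ e.val + 1 = k := by
  induction t using List.reverseRecOn with
  | nil =>
    intro e he
    simp only [List.mem_singleton] at he
    rw [he]
    exact Or.inl hb
  | append_singleton t y ih =>
    have h' : x :: b :: t ∈ LU k c j := LU_infix ⟨[], [y], by simp⟩ h
    have ih' := ih h'
    intro e he
    rw [← List.cons_append, List.mem_append] at he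
    rcases he with he | he
    · exact ih' e he
    simp only [List.mem_singleton] at he
    rw [he]
    obtain ⟨s, d, hsd⟩ : ∃ s d, b :: t = s ++ [d] := by
      rcases List.eq_nil_or_concat' (b :: t) with h | ⟨s, d, h⟩
      · cases h
      · exact ⟨s, d, h⟩
    have hd := ih' d (by rw [hsd]; simp)
    have hm : x :: (b :: t) ++ [y] ∈ LU k c j := by simpa using h
    rcases hd with hd | hd
    · have := hm.2.1 x (b :: t) y (List.infix_refl _) ⟨b, t, rfl, hb⟩ ⟨s, d, hsd, hd⟩
      rcases this with h1 | h1
      · exact absurd h1 hx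
      · exact Or.inr h1
    · have hF := LU_last s d y x (b :: t) hsd hm
      left
      unfold F at hF
      omega

/-- For `c = 1`, after `1` only `1` occurs. -/
lemma LU_ones {j : ℕ} (hj : 1 < j) (b : Fin k) (t : List (Fin k))
    (h : b :: t ∈ LU k 1 j) (hb : b.val = 1) : ∀ e ∈ b :: t, e.val = 1 := by
  induction t generalizing b with
  | nil => intro e he; simp only [List.mem_singleton] at he; rw [he]; exact hb
  | cons d t ih =>
    have hF : F k 1 j b d := by
      rw [← LU_pair]
      exact LU_infix ⟨[], t, by simp⟩ h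
    have hd : d.val = 1 := by
      unfold F at hF
      omega
    intro e he
    rcases List.mem_cons.1 he with rfl | he
    · exact hb
    · exact ih d (LU_infix (List.suffix_cons b _).isInfix h) hd e he

/-- For `c = 2`, after `1 2` or `2 1` the word alternates. -/
lemma LU_alt {j : ℕ} (hj : 2 < j) (t : List (Fin k)) : ∀ (a b : Fin k), a :: b :: t ∈ LU k 2 j →
    (a.val = 1 ∧ b.val = 2) ∨ (a.val = 2 ∧ b.val = 1) →
    ∃ s c d, a :: b :: t = s ++ [c, d] ∧
      ((c.val = 1 ∧ d.val = 2) ∨ (c.val = 2 ∧ d.val = 1)) := by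
  induction t with
  | nil => intro a b _ h; exact ⟨[], a, b, rfl, h⟩
  | cons e t ih =>
    intro a b hm h
    have h1 : b :: e :: t ∈ LU k 2 j := LU_infix (List.suffix_cons a _).isInfix hm
    have h2 : F k 2 j b e := by
      rw [← LU_pair]
      exact LU_infix ⟨[], t, by simp⟩ h1
    have h3 : b.val = 1 → e.val = 1 → a.val = j :=
      hm.2.2 rfl a b e ⟨[], t, rfl⟩
    have h4 : (b.val = 1 ∧ e.val = 2) ∨ (b.val = 2 ∧ e.val = 1) := by
      unfold F at h2
      omega
    obtain ⟨s, c, d, hs, hcd⟩ := ih b e h1 h4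
    exact ⟨a :: s, c, d, by rw [hs]; rfl, hcd⟩

/-- In a word `x v y` of `LU 2 j` with `v` starting with `1 2` or `2 1`, `y` is determined. -/
lemma LU_alt_next {j : ℕ} (hj : 2 < j) (b d : Fin k) (t : List (Fin k)) (x x' y y' : Fin k)
    (hbd : (b.val = 1 ∧ d.val = 2) ∨ (b.val = 2 ∧ d.val = 1))
    (h : x :: (b :: d :: t) ++ [y] ∈ LU k 2 j) (h' : x' :: (b :: d :: t) ++ [y'] ∈ LU k 2 j) :
    y = y' := by
  have hm : b :: d :: t ∈ LU k 2 j := LU_infix ⟨[x], [y], by simp⟩ h
  obtain ⟨s, p, q, hs, hpq⟩ := LU_alt hj t b d hm hbd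
  have hs' : b :: d :: t = (s ++ [p]) ++ [q] := by rw [hs]; simp
  have h1 := LU_last (s ++ [p]) q y x _ hs' h
  have h2 := LU_last (s ++ [p]) q y' x' _ hs' h'
  have h3 : q.val = 1 → y.val = 1 → p.val = j := h.2.2 rfl p q y ⟨x :: s, [], by rw [hs]; simp⟩
  have h4 : q.val = 1 → y'.val = 1 → p.val = j :=
    h'.2.2 rfl p q y' ⟨x' :: s, [], by rw [hs]; simp⟩
  apply Fin.ext
  unfold F at h1 h2
  rcases hpq with hpq | hpq
  · have e1 : y.val = 1 := by omega
    have e2 : y'.val = 1 := by omega
    omega
  · have e1 : y.val = 2 := by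
      have : y.val ≠ 1 := fun h => by have := h3 hpq.2 h; omega
      omega
    have e2 : y'.val = 2 := by
      have : y'.val ≠ 1 := fun h => by have := h4 hpq.2 h; omega
      omega
    omega

/-- The extension sets of non-empty words. -/
theorem LU_key {c j : ℕ} (hc1 : 1 ≤ c) (hc2 : c ≤ 2) (hcj : c < j) (hjk : j < k)
    (v : List (Fin k)) (hv : v ≠ []) (x x' y y' : Fin k)
    (h : x :: v ++ [y] ∈ LU k c j) (h' : x' :: v ++ [y'] ∈ LU k c j) (hx : x.val < x'.val) :
    y = y' ∨ (y.val + 1 = k ∧ StartsZero v ∧ EndsZero v) ∨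
      (c = 2 ∧ ∃ b, v = [b] ∧ b.val = 1 ∧ y.val = 2) := by
  obtain ⟨b, t, rfl⟩ : ∃ b t, v = b :: t := by
    cases v with
    | nil => exact absurd rfl hv
    | cons b t => exact ⟨b, t, rfl⟩
  have hxb := LU_first b t x y h
  have hxb' := LU_first b t x' y' h'
  have hx'k := x'.2
  have hbk := b.2
  have hb : (b.val = 0 ∧ j ≤ x.val) ∨ b.val = 1 ∨ (b.val = 2 ∧ c = 2) := by
    unfold F at hxb hxb'
    rcases hxb with e | e | e | e | e <;> rcases hxb' with e' | e' | e' | e' | e' <;> omega
  obtain ⟨s, d, hsd⟩ : ∃ s d, b :: t = s ++ [d] := by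
    rcases List.eq_nil_or_concat' (b :: t) with h | ⟨s, d, h⟩
    · cases h
    · exact ⟨s, d, h⟩
  have hdy := LU_last s d y x (b :: t) hsd h
  have hdy' := LU_last s d y' x' (b :: t) hsd h'
  rcases hb with ⟨hb, hjx⟩ | hb | ⟨hb, hc⟩
  · -- `b = 0`
    have hlock := LU_lock (c := c) (j := j) hcj (by omega) x b (by omega) hb t
      (LU_infix ⟨[], [y], by simp⟩ h)
    have hd := hlock d (by rw [hsd]; simp)
    rcases hd with hd | hd
    · right
      left
      have := h.2.1 x (b :: t) y (List.infix_refl _) ⟨b, t, rfl, hb⟩ ⟨s, d, hsd, hd⟩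
      rcases this with h1 | h1
      · omega
      · exact ⟨h1, ⟨b, t, rfl, hb⟩, ⟨s, d, hsd, hd⟩⟩
    · left
      apply Fin.ext
      have hj1 : j < d.val := by omega
      unfold F at hdy hdy'
      omega
  · -- `b = 1`
    rcases Nat.lt_or_ge c 2 with hc | hc
    · have hc' : c = 1 := by omega
      subst hc'
      have hd := LU_ones (by omega) b t (LU_infix ⟨[x], [y], by simp⟩ h) hb d (by rw [hsd]; simp)
      left
      apply Fin.ext
      unfold F at hdy hdy'
      omega
    · have hc' : c = 2 := by omega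
      subst hc'
      rcases t with _ | ⟨e, t⟩
      · right
        right
        refine ⟨rfl, b, rfl, hb, ?_⟩
        have h1 : b.val = 1 → y.val = 1 → x.val = j :=
          h.2.2 rfl x b y (by simp)
        have h2 : F k 2 j b y := by
          rw [← LU_pair]
          exact LU_infix ⟨[x], [], by simp⟩ h
        have h3 : x'.val ≤ j := by
          unfold F at hxb'
          omega
        have h4 : y.val ≠ 1 := fun h => by have := h1 hb h; omega
        unfold F at h2
        omega
      · left
        have h1 : b.val = 1 → e.val = 1 → x.val = j :=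
          h.2.2 rfl x b e ⟨[], t ++ [y], by simp⟩
        have h2 : b.val = 1 → e.val = 1 → x'.val = j :=
          h'.2.2 rfl x' b e ⟨[], t ++ [y'], by simp⟩
        have h3 : F k 2 j b e := by
          rw [← LU_pair]
          exact LU_infix ⟨[x], t ++ [y], by simp⟩ h
        have he : e.val = 2 := by
          have : e.val ≠ 1 := fun h => by
            have := h1 hb h
            have := h2 hb h
            omega
          unfold F at h3
          omega
        exact LU_alt_next hcj b e t x x' y y' (Or.inl ⟨hb, he⟩) h h'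
  · -- `b = 2`
    subst hc
    left
    rcases t with _ | ⟨e, t⟩
    · have e1 : F k 2 j b y := by
        rw [← LU_pair]
        exact LU_infix ⟨[x], [], by simp⟩ h
      have e2 : F k 2 j b y' := by
        rw [← LU_pair]
        exact LU_infix ⟨[x'], [], by simp⟩ h'
      apply Fin.ext
      unfold F at e1 e2
      omega
    · have h3 : F k 2 j b e := by
        rw [← LU_pair]
        exact LU_infix ⟨[x], t ++ [y], by simp⟩ h
      have he : e.val = 1 := by
        unfold F at h3
        omega
      exact LU_alt_next hcj b e t x x' y y' (Or.inr ⟨hb, he⟩) h h'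

theorem LU_hyp {c j : ℕ} (hc1 : 1 ≤ c) (hc2 : c ≤ 2) (hcj : c < j) (hjk : j < k) :
    Hyp (LU k c j) := by
  have hLan := LU_lang (k := k) hc1 hc2 hcj hjk
  apply hyp_of hLan
  · intro v x x' y y' h h' hlt
    change y'.val ≤ y.val
    have hlt' : x.val < x'.val := hlt
    have hy' := y'.2
    rcases eq_or_ne v [] with rfl | hv
    · have h1 := (LU_pair x y).1 h
      have h2 := (LU_pair x' y').1 h'
      unfold F at h1 h2
      rcases h1 with e | e | e | e | e <;> rcases h2 with e' | e' | e' | e' | e' <;> omega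
    · rcases LU_key hc1 hc2 hcj hjk v hv x x' y y' h h' hlt' with h1 | h1 | h1
      · rw [h1]
      · omega
      · obtain ⟨hc, b, rfl, hb, hy⟩ := h1
        have h2 : F k c j b y' := by
          rw [← LU_pair]
          exact LU_infix ⟨[x'], [], by simp⟩ h'
        unfold F at h2
        omega
  · intro v a a' b b' ha hb h h'
    have hbk := b.2
    have hak := a'.2
    rcases eq_or_ne v [] with rfl | hv
    · have h1 := (LU_pair a b).1 h
      have h2 := (LU_pair a' b').1 h'
      change [a, b'] ∈ LU k c j ∨ [a', b] ∈ LU k c j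
      rw [LU_pair, LU_pair]
      unfold F at h1 h2 ⊢
      rcases h1 with e | e | e | e | e <;> rcases h2 with e' | e' | e' | e' | e' <;> omega
    · rcases LU_key hc1 hc2 hcj hjk v hv a a' b b' h h' (by omega) with h1 | h1 | h1
      · rw [h1] at hb
        omega
      · right
        obtain ⟨h1, h2, h3⟩ := h1
        have h4 := h'.2.1 a' v b' (List.infix_refl _) h2 h3
        have h5 : a'.val + 1 = k := by
          rcases h4 with h4 | h4
          · exact h4
          · omega
        obtain ⟨z, t, rfl, hz⟩ := h2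
        have h6 : F k c j a' z := LU_first z t a' b' h'
        have h7 : z :: (t ++ [b]) ∈ LU k c j := LU_infix ⟨[a], [], by simp⟩ h
        have := LU_left a' z (t ++ [b]) h7 h6 (fun _ => h5) (fun _ hz1 => by omega)
        simpa using this
      · right
        obtain ⟨hc, d, rfl, hd, hy⟩ := h1
        have h2 : F k c j a' d := LU_first d [] a' b' h'
        have h3 : d :: [b] ∈ LU k c j := LU_infix ⟨[a], [], by simp⟩ h
        have := LU_left a' d [b] h3 h2 (fun hd0 => by omega) (fun _ _ z s hzs hz1 => by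
          simp only [List.cons.injEq] at hzs
          rw [← hzs.1] at hz1
          omega)
        simpa using this

end Pool.Agent.KS6_71.PC
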