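import Pool.Agent.KS6_71.PC.Fam

/-!
# The palindromic complexity of the family
-/

open Finset

namespace Pool.Agent.KS6_71.PC

variable {k : ℕ}

/-- the surviving letters -/
def T (k c j : ℕ) : Finset (Fin k) := Finset.univ.filter fun y => y.val ≤ c ∨ j ≤ y.val

lemma T_card {c j : ℕ} (hcj : c < j) (hjk : j < k) : (T k c j).card = c + 1 + (k - j) := by
  have h : (T k c j).card = ((Finset.range (c + 1)) ∪ (Finset.Ico j k)).card := by
    refine Finset.card_bij (fun y _ => y.val) ?_ ?_ ?_
    · intro y hy
      simp only [T, Finset.mem_filter, Finset.mem_univ, true_and] at hy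
      simp only [Finset.mem_union, Finset.mem_range, Finset.mem_Ico]
      have := y.2
      omega
    · intro y _ z _ h
      exact Fin.ext h
    · intro a ha
      simp only [Finset.mem_union, Finset.mem_range, Finset.mem_Ico] at ha
      refine ⟨⟨a, by omega⟩, ?_, rfl⟩
      simp only [T, Finset.mem_filter, Finset.mem_univ, true_and]
      omega
  rw [h, Finset.card_union_of_disjoint, Finset.card_range, Nat.card_Ico]
  rw [Finset.disjoint_left]
  intro a ha hb
  simp only [Finset.mem_range, Finset.mem_Ico] at ha hb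
  omega

/-- upper bound for `PC 3` -/
lemma LU_PC3_le {c j : ℕ} (hc1 : 1 ≤ c) (hc2 : c ≤ 2) (hcj : c < j) (hjk : j < k) :
    PC (LU k c j) 3 ≤ c + 1 + (k - j) := by
  classical
  rw [← T_card hcj hjk]
  unfold PC
  have hfin : (((T k c j).image fun y => [y] : Finset (List (Fin k))) :
      Set (List (Fin k))).Finite := Finset.finite_toSet _
  have h1 : {w | w ∈ LU k c j ∧ w.length = 3 ∧ w.reverse = w}.ncard ≤
      (((T k c j).image fun y => [y] : Finset (List (Fin k))) : Set (List (Fin k))).ncard := by
    refine Set.ncard_le_ncard_of_injOn (fun w => w.tail.dropLast) ?_ ?_ hfin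
    · rintro w ⟨hw, hwl, hwr⟩
      obtain ⟨x, y, z, rfl⟩ := List.length_eq_three.1 hwl
      simp only [List.reverse_cons, List.reverse_nil, List.nil_append, List.cons_append,
        List.cons.injEq, and_true, true_and] at hwr
      have hzx : z = x := hwr.1
      subst hzx
      have e1 : F k c j z y := by
        rw [← LU_pair]
        exact LU_infix ⟨[], [z], rfl⟩ hw
      have e2 : F k c j y z := by
        rw [← LU_pair]
        exact LU_infix ⟨[z], [], rfl⟩ hw
      simp only [List.tail_cons, List.dropLast_cons_cons, List.dropLast_singleton,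
        Finset.coe_image, Set.mem_image, Finset.mem_coe, T, Finset.mem_filter, Finset.mem_univ,
        true_and, List.cons.injEq, and_true, exists_eq_right]
      unfold F at e1 e2
      rcases e1 with e | e | e | e | e <;> rcases e2 with e' | e' | e' | e' | e' <;> omega
    · rintro w ⟨hw, hwl, hwr⟩ w' ⟨hw', hwl', hwr'⟩ heq
      obtain ⟨x, y, z, rfl⟩ := List.length_eq_three.1 hwl
      obtain ⟨x', y', z', rfl⟩ := List.length_eq_three.1 hwl'
      simp only [List.reverse_cons, List.reverse_nil, List.nil_append, List.cons_append,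
        List.cons.injEq, and_true, true_and] at hwr hwr'
      have hzx : z = x := hwr.1
      subst hzx
      have hzx' : z' = x' := hwr'.1
      subst hzx'
      have hyy : y = y' := by simpa using heq
      subst hyy
      have e1 : F k c j z y := by
        rw [← LU_pair]
        exact LU_infix ⟨[], [z], rfl⟩ hw
      have e2 : F k c j y z := by
        rw [← LU_pair]
        exact LU_infix ⟨[z], [], rfl⟩ hw
      have e1' : F k c j z' y := by
        rw [← LU_pair]
        exact LU_infix ⟨[], [z'], rfl⟩ hw'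
      have e2' : F k c j y z' := by
        rw [← LU_pair]
        exact LU_infix ⟨[z'], [], rfl⟩ hw'
      have e3 : y.val = 0 → z.val + 1 = k := by
        intro hy
        have := hw.2.1 z [y] z (List.infix_refl _) ⟨y, [], rfl, hy⟩ ⟨[], y, rfl, hy⟩
        omega
      have e3' : y.val = 0 → z'.val + 1 = k := by
        intro hy
        have := hw'.2.1 z' [y] z' (List.infix_refl _) ⟨y, [], rfl, hy⟩ ⟨[], y, rfl, hy⟩
        omega
      have e4 : c = 2 → y.val = 1 → z.val ≠ 1 := by
        intro hc hy hz
        have := hw.2.2 hc z y z (List.infix_refl _) hy hz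
        omega
      have e4' : c = 2 → y.val = 1 → z'.val ≠ 1 := by
        intro hc hy hz
        have := hw'.2.2 hc z' y z' (List.infix_refl _) hy hz
        omega
      have : z = z' := by
        apply Fin.ext
        have hz := z.2
        have hz' := z'.2
        clear hw hw' hwl hwl' hwr hwr' heq
        rcases Nat.eq_zero_or_pos y.val with h0 | h0
        · have := e3 h0
          have := e3' h0
          omega
        · unfold F at e2 e2'
          rcases e2 with e | e | e | e | e <;> rcases e2' with e' | e' | e' | e' | e' <;>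
            first
            | omega
            | (unfold F at e1 e1'
               rcases e1 with f | f | f | f | f <;> rcases e1' with f' | f' | f' | f' | f' <;>
                 omega)
      rw [this]
  rw [Set.ncard_coe_finset] at h1
  exact h1.trans Finset.card_image_le

/-- good palindromes, which extend forever -/
def Good (k c : ℕ) (w : List (Fin k)) : Prop :=
  ∃ h z t, w = h :: z :: t ∧ (h.val = 0 ∨ h.val + 1 = k ∨ (h.val = 1 ∧ z.val = c) ∨
    (h.val = c ∧ z.val = 1))

/-- the set of good palindromes of length `n` -/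
def G (k c j n : ℕ) : Set (List (Fin k)) :=
  {w | w ∈ LU k c j ∧ w.length = n ∧ w.reverse = w ∧ Good k c w}

lemma G_finite (c j n : ℕ) : (G k c j n).Finite :=
  (List.finite_length_eq (Fin k) n).subset fun _ hw => hw.2.1

lemma G_le_PC (c j n : ℕ) : (G k c j n).ncard ≤ PC (LU k c j) n :=
  Set.ncard_le_ncard (fun _ hw => ⟨hw.1, hw.2.1, hw.2.2.1⟩) (pal_finite _ _)

lemma G_extend {c j n : ℕ} (hc1 : 1 ≤ c) (hc2 : c ≤ 2) (hcj : c < j) (hjk : j < k)
    (w : List (Fin k)) (hw : w ∈ G k c j n) : ∃ a, a :: w ++ [a] ∈ G k c j (n + 2) := by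
  obtain ⟨hL, hl, hr, h, z, t, rfl, hg⟩ := hw
  have hk : 3 ≤ k := by omega
  have hhk := h.2
  -- the new letter
  obtain ⟨a, ha0, ha1, ha2, ha3⟩ : ∃ a : Fin k, (h.val = 0 → a.val + 1 = k) ∧
      (h.val + 1 = k → a.val = 0) ∧ (h.val = 1 → a.val = c) ∧
      (h.val = c → h.val ≠ 1 → a.val = 1) := by
    rcases Nat.eq_zero_or_pos h.val with h0 | h0
    · exact ⟨⟨k - 1, by omega⟩, fun _ => by change k - 1 + 1 = k; omega, fun _ => by omega,
        fun _ => by omega, fun _ _ => by omega⟩
    · rcases Nat.lt_or_ge (h.val + 1) k with h1 | h1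
      · rcases eq_or_ne h.val 1 with h2 | h2
        · exact ⟨⟨c, by omega⟩, fun _ => by omega, fun _ => by omega, fun _ => rfl,
            fun _ _ => by omega⟩
        · exact ⟨⟨1, by omega⟩, fun _ => by omega, fun _ => by omega, fun _ => by omega,
            fun _ _ => rfl⟩
      · exact ⟨⟨0, by omega⟩, fun _ => by omega, fun _ => rfl, fun _ => by omega,
          fun _ _ => by omega⟩
  have hak := a.2
  obtain ⟨s, hs⟩ : ∃ s, h :: z :: t = s ++ [h] := by
    refine ⟨(z :: t).reverse, ?_⟩
    rw [← hr]
    simp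
  have hF1 : F k c j h a := by
    unfold F
    rcases hg with hg | hg | hg | hg
    · have := ha0 hg
      omega
    · have := ha1 hg
      omega
    · have := ha2 hg.1
      omega
    · rcases eq_or_ne h.val 1 with h2 | h2
      · have := ha2 h2
        omega
      · have := ha3 hg.1 h2
        omega
  have hF2 : F k c j a h := by
    unfold F
    rcases hg with hg | hg | hg | hg
    · have := ha0 hg
      omega
    · have := ha1 hg
      omega
    · have := ha2 hg.1
      omega
    · rcases eq_or_ne h.val 1 with h2 | h2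
      · have := ha2 h2
        omega
      · have := ha3 hg.1 h2
        omega
  have h1 : (s ++ [h]) ++ [a] ∈ LU k c j := by
    refine LU_right s h a (by rw [← hs]; exact hL) hF1 ha0 ?_
    intro hc hh
    have := ha2 hh
    omega
  rw [← hs] at h1
  have h2 : a :: h :: (z :: t ++ [a]) ∈ LU k c j := by
    refine LU_left a h (z :: t ++ [a]) (by simpa using h1) hF2 ha0 ?_
    intro hc hh z' s' he hz'
    exfalso
    simp only [List.cons_append, List.cons.injEq] at he
    rw [← he.1] at hz'
    omega
  refine ⟨a, by simpa using h2, by simp at hl ⊢; omega, ?_, a, h, z :: t ++ [a], by simp, ?_⟩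
  · rw [List.cons_append, List.reverse_cons, List.reverse_append, hr]
    simp
  · rcases hg with hg | hg | hg | hg
    · exact Or.inr (Or.inl (ha0 hg))
    · exact Or.inl (ha1 hg)
    · exact Or.inr (Or.inr (Or.inr ⟨ha2 hg.1, hg.1⟩))
    · rcases eq_or_ne h.val 1 with h2 | h2
      · exact Or.inr (Or.inr (Or.inr ⟨ha2 h2, h2⟩))
      · exact Or.inr (Or.inr (Or.inl ⟨ha3 hg.1 h2, hg.1⟩))

lemma G_mono {c j n : ℕ} (hc1 : 1 ≤ c) (hc2 : c ≤ 2) (hcj : c < j) (hjk : j < k) :
    (G k c j n).ncard ≤ (G k c j (n + 2)).ncard := by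
  classical
  have hex := fun w (hw : w ∈ G k c j n) => G_extend hc1 hc2 hcj hjk w hw
  have : ∃ f : List (Fin k) → List (Fin k), ∀ w, w ∈ G k c j n →
      ∃ a, f w = a :: w ++ [a] ∧ a :: w ++ [a] ∈ G k c j (n + 2) := by
    refine ⟨fun w => if h : w ∈ G k c j n then
      (hex w h).choose :: w ++ [(hex w h).choose] else [], fun w hw => ?_⟩
    refine ⟨(hex w hw).choose, ?_, (hex w hw).choose_spec⟩
    simp only [dif_pos hw]
  obtain ⟨f, hf⟩ := this
  refine Set.ncard_le_ncard_of_injOn f ?_ ?_ (G_finite c j (n + 2))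
  · intro w hw
    obtain ⟨a, h1, h2⟩ := hf w hw
    rw [h1]
    exact h2
  · intro w hw w' hw' hff
    obtain ⟨a, h1, _⟩ := hf w hw
    obtain ⟨a', h1', _⟩ := hf w' hw'
    rw [h1, h1'] at hff
    simp only [List.cons_append, List.cons.injEq] at hff
    exact (List.append_inj' hff.2 rfl).1

lemma G_three {c j : ℕ} (hc1 : 1 ≤ c) (hc2 : c ≤ 2) (hcj : c < j) (hjk : j < k) :
    c + 1 + (k - j) ≤ (G k c j 3).ncard := by
  classical
  rw [← T_card hcj hjk, ← Set.ncard_coe_finset]
  have hex : ∀ y : Fin k, y ∈ T k c j → ∃ x : Fin k, [x, y, x] ∈ G k c j 3 := by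
    intro y hy
    simp only [T, Finset.mem_filter, Finset.mem_univ, true_and] at hy
    have hyk := y.2
    obtain ⟨x, hx0, hx1, hx2, hx3⟩ : ∃ x : Fin k, (y.val = 0 → x.val + 1 = k) ∧
        (y.val = 1 → x.val = c) ∧ (j ≤ y.val → x.val = 0) ∧
        (2 ≤ y.val → y.val < j → x.val = 1) := by
      rcases Nat.eq_zero_or_pos y.val with h0 | h0
      · exact ⟨⟨k - 1, by omega⟩, fun _ => by change k - 1 + 1 = k; omega, fun _ => by omega,
          fun _ => by omega, fun _ _ => by omega⟩
      · rcases eq_or_ne y.val 1 with h2 | h2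
        · exact ⟨⟨c, by omega⟩, fun _ => by omega, fun _ => rfl, fun _ => by omega,
            fun _ _ => by omega⟩
        · rcases Nat.lt_or_ge y.val j with h1 | h1
          · exact ⟨⟨1, by omega⟩, fun _ => by omega, fun _ => by omega, fun _ => by omega,
              fun _ _ => rfl⟩
          · exact ⟨⟨0, by omega⟩, fun _ => by omega, fun _ => by omega, fun _ => rfl,
              fun _ _ => by omega⟩
    have hxk := x.2
    have hcase : y.val = 0 ∨ y.val = 1 ∨ (y.val = 2 ∧ c = 2) ∨ j ≤ y.val := by omega
    have hF1 : F k c j y x := by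
      unfold F
      rcases hcase with h | h | h | h
      · have := hx0 h; omega
      · have := hx1 h; omega
      · have := hx3 (by omega) (by omega); omega
      · have := hx2 h; omega
    have hF2 : F k c j x y := by
      unfold F
      rcases hcase with h | h | h | h
      · have := hx0 h; omega
      · have := hx1 h; omega
      · have := hx3 (by omega) (by omega); omega
      · have := hx2 h; omega
    have h1 : ([] ++ [y]) ++ [x] ∈ LU k c j := by
      refine LU_right [] y x (LU_single y) hF1 hx0 ?_
      intro hc hy1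
      have := hx1 hy1
      omega
    have h2 : x :: y :: [x] ∈ LU k c j := by
      refine LU_left x y [x] h1 hF2 hx0 ?_
      intro hc hy1 z s he hz
      simp only [List.cons.injEq] at he
      rw [← he.1] at hz
      have := hx1 hy1
      omega
    refine ⟨x, h2, rfl, by simp, x, y, [x], rfl, ?_⟩
    rcases hcase with h | h | h | h
    · exact Or.inr (Or.inl (hx0 h))
    · exact Or.inr (Or.inr (Or.inr ⟨hx1 h, h⟩))
    · exact Or.inr (Or.inr (Or.inl ⟨hx3 (by omega) (by omega), by omega⟩))
    · exact Or.inl (hx2 h)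
  have : ∃ f : Fin k → List (Fin k), ∀ y ∈ T k c j, ∃ x, f y = [x, y, x] ∧
      [x, y, x] ∈ G k c j 3 := by
    refine ⟨fun y => if h : y ∈ T k c j then
      [(hex y h).choose, y, (hex y h).choose] else [], fun y hy => ?_⟩
    refine ⟨(hex y hy).choose, ?_, (hex y hy).choose_spec⟩
    simp only [dif_pos hy]
  obtain ⟨f, hf⟩ := this
  refine Set.ncard_le_ncard_of_injOn f ?_ ?_ (G_finite c j 3)
  · intro y hy
    obtain ⟨x, h1, h2⟩ := hf y hy
    rw [h1]
    exact h2
  · intro y hy y' hy' hff
    obtain ⟨x, h1, _⟩ := hf y hy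
    obtain ⟨x', h1', _⟩ := hf y' hy'
    rw [h1, h1'] at hff
    simp only [List.cons.injEq] at hff
    exact hff.2.1

/-- The odd values. -/
theorem LU_odd {c j : ℕ} (hc1 : 1 ≤ c) (hc2 : c ≤ 2) (hcj : c < j) (hjk : j < k) (n : ℕ) :
    PC (LU k c j) (2 * n + 3) = c + 1 + (k - j) := by
  have hH := LU_hyp (k := k) hc1 hc2 hcj hjk
  have h1 : PC (LU k c j) (2 * n + 3) ≤ c + 1 + (k - j) := by
    induction n with
    | zero => exact LU_PC3_le hc1 hc2 hcj hjk
    | succ n ih => exact (hyp_anti hH (2 * n + 3)).trans ih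
  have h2 : c + 1 + (k - j) ≤ (G k c j (2 * n + 3)).ncard := by
    clear h1
    induction n with
    | zero => exact G_three hc1 hc2 hcj hjk
    | succ n ih => exact ih.trans (G_mono hc1 hc2 hcj hjk)
  exact le_antisymm h1 (h2.trans (G_le_PC c j _))

/-- The even values for `c = 1`. -/
theorem LU_even_one {j : ℕ} (hcj : 1 < j) (hjk : j < k) (n : ℕ) :
    PC (LU k 1 j) (2 * n) = 1 := by
  have hH := LU_hyp (k := k) (c := 1) le_rfl (by omega) hcj hjk
  rcases n with _ | n
  · exact PC_zero hH.1
  refine le_antisymm (hyp_upper hH (n + 1)).1 ?_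
  refine le_trans ?_ (G_le_PC 1 j _)
  induction n with
  | zero =>
    have : [(⟨1, by omega⟩ : Fin k), ⟨1, by omega⟩] ∈ G k 1 j 2 := by
      refine ⟨?_, rfl, rfl, _, _, [], rfl, Or.inr (Or.inr (Or.inl ⟨rfl, rfl⟩))⟩
      rw [LU_pair]
      exact Or.inr (Or.inl ⟨rfl, le_rfl, le_rfl⟩)
    have h2 : (G k 1 j (2 * (0 + 1))).Nonempty := ⟨_, this⟩
    exact (Set.ncard_pos (G_finite 1 j _)).2 h2
  | succ n ih => exact ih.trans (G_mono le_rfl (by omega) hcj hjk)

/-- The even values for `c = 2`. -/
theorem LU_even_two {j : ℕ} (hcj : 2 < j) (hjk : j < k) (n : ℕ) :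
    PC (LU k 2 j) (2 * n + 4) = 0 := by
  classical
  have hH := LU_hyp (k := k) (c := 2) (by omega) le_rfl hcj hjk
  induction n with
  | zero =>
    unfold PC
    have : {w | w ∈ LU k 2 j ∧ w.length = 2 * 0 + 4 ∧ w.reverse = w} = ∅ := by
      rw [Set.eq_empty_iff_forall_notMem]
      rintro w ⟨hw, hwl, hwr⟩
      obtain ⟨x, y, y', x', rfl⟩ : ∃ a b c d, w = [a, b, c, d] := by
        rcases w with _ | ⟨a, _ | ⟨b, _ | ⟨c, _ | ⟨d, t⟩⟩⟩⟩ <;> simp at hwl
        subst hwl
        exact ⟨a, b, c, d, rfl⟩
      simp only [List.reverse_cons, List.reverse_nil, List.nil_append, List.cons_append,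
        List.cons.injEq, and_true] at hwr
      have hxx : x' = x := hwr.1
      have hyy : y' = y := hwr.2.1
      rw [hxx, hyy] at hw
      have e1 : F k 2 j y y := by
        rw [← LU_pair]
        exact LU_infix ⟨[x], [x], rfl⟩ hw
      have e2 : F k 2 j y x := by
        rw [← LU_pair]
        exact LU_infix ⟨[x, y], [], rfl⟩ hw
      have hy : y.val = 1 := by
        unfold F at e1
        omega
      have e3 : x.val = j := hw.2.2 rfl x y y ⟨[], [x], rfl⟩ hy hy
      unfold F at e2
      omega
    rw [this, Set.ncard_empty]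
  | succ n ih =>
    have := hyp_anti hH (2 * n + 4)
    rw [ih] at this
    exact Nat.le_zero.1 this

end Pool.Agent.KS6_71.PC
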