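import Pool.Agent.KS6_71.PC.Cyc

/-!
# Rauzy graphs: simple cycles contain two palindromes
-/

open Finset

namespace Pool.Agent.KS6_71.PC

variable {A : Type*}

/-- a step in the Rauzy graph -/
def Step (L : Set (List A)) (u v : List A) : Prop :=
  ∃ a t b, u = a :: t ∧ v = t ++ [b] ∧ a :: (t ++ [b]) ∈ L

abbrev Reach (L : Set (List A)) : List A → List A → Prop := Relation.ReflTransGen (Step L)

lemma windows_of_steps {L : Set (List A)} {m N : ℕ} (p : ZMod m → List A)
    (hp : ∀ i, (p i).length = N) (hs : ∀ i, Step L (p i) (p (i + 1))) :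
    ∃ s : ZMod m → A, (∀ i, W s N i = p i) ∧ ∀ i, W s (N + 1) i ∈ L := by
  choose s t b h1 h2 h3 using hs
  have key : ∀ n ≤ N, ∀ i, W s n i = (p i).take n := by
    intro n
    induction n with
    | zero => intro _ i; simp [W]
    | succ n ih =>
      intro hn i
      have e1 : (t i).length + 1 = N := by
        have := hp i
        rw [h1 i] at this
        simpa using this
      rw [W, ih (by omega), h2 i, h1 i, List.take_succ_cons, List.take_append_of_le_length]
      omega
  have key2 : ∀ i, W s N i = p i := by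
    intro i
    rw [key N le_rfl i, List.take_of_length_le (hp i).le]
  refine ⟨s, key2, fun i => ?_⟩
  rw [W, key2, h2 i]
  exact h3 i

/-- A simple cycle of the Rauzy graph of order `N` contains two palindromes of lengths `N` or
`N + 1`. -/
theorem two_palindromes [LinearOrder A] [Fintype A] {L : Set (List A)} (hL : IsLanguage L)
    (hA : Anti L) {m N : ℕ} [NeZero m] (s : ZMod m → A) (hW : ∀ i, W s (N + 1) i ∈ L)
    (hinj : ∀ i j, W s N i = W s N j → i = j) :
    ∃ w₁ w₂ : List A, w₁ ≠ w₂ ∧ (∀ w, (w = w₁ ∨ w = w₂) → w ∈ L ∧ w.reverse = w ∧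
      (w.length = N ∨ w.length = N + 1) ∧ ∃ i, w.take N = W s N i) := by
  classical
  have hm : 0 < m := Nat.pos_of_ne_zero (NeZero.ne m)
  have hrev := occ_reverse hL hA s hW
  have hτ : ∀ i, ∃ j, W s N j = (W s N i).reverse := by
    intro i
    have h1 : occ s (W s N i) ≠ 0 := (occ_ne_zero s _).2 ⟨i, by rw [W_length]⟩
    rw [← hrev N (by omega) _ (W_length s N i)] at h1
    obtain ⟨j, hj⟩ := (occ_ne_zero s _).1 h1
    rw [List.length_reverse, W_length] at hj
    exact ⟨j, hj⟩
  have hσ : ∀ i, ∃ j, W s (N + 1) j = (W s (N + 1) i).reverse := by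
    intro i
    have h1 : occ s (W s (N + 1) i) ≠ 0 := (occ_ne_zero s _).2 ⟨i, by rw [W_length]⟩
    rw [← hrev (N + 1) le_rfl _ (W_length s (N + 1) i)] at h1
    obtain ⟨j, hj⟩ := (occ_ne_zero s _).1 h1
    rw [List.length_reverse, W_length] at hj
    exact ⟨j, hj⟩
  choose τ hτ using hτ
  choose σ hσ using hσ
  have hσ1 : ∀ i, σ i = τ (i + 1) := by
    intro i
    apply hinj
    have h := hσ i
    rw [W_succ' s N (σ i), W, List.reverse_cons] at h
    rw [(List.append_inj' h rfl).1, hτ]
  have hσ2 : ∀ i, σ i + 1 = τ i := by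
    intro i
    apply hinj
    have h := hσ i
    rw [W_succ' s N i, W, List.reverse_append] at h
    simp only [List.reverse_cons, List.reverse_nil, List.nil_append, List.singleton_append,
      List.cons.injEq] at h
    rw [h.2, hτ]
  have hτc : ∀ n : ℕ, τ (n : ZMod m) = τ 0 - n := by
    intro n
    induction n with
    | zero => simp
    | succ n ih =>
      have h1 := hσ1 n
      have h2 := hσ2 n
      rw [h1, ih] at h2
      push_cast
      linear_combination h2
  set c := τ 0 with hc
  set r := c.val with hr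
  have hrm : r < m := ZMod.val_lt c
  -- the palindromes
  have hpal : ∀ q : ℕ, ((q : ℕ) : ZMod m) = c →
      (W s (N + q % 2) ((q / 2 : ℕ) : ZMod m)).reverse = W s (N + q % 2) ((q / 2 : ℕ) : ZMod m) := by
    intro q hq
    rcases Nat.even_or_odd' q with ⟨h, rfl | rfl⟩
    · have e1 : (2 * h) % 2 = 0 := by omega
      have e2 : (2 * h) / 2 = h := by omega
      rw [e1, e2, Nat.add_zero, ← hτ, hτc, ← hq]
      congr 1
      push_cast
      ring
    · have e1 : (2 * h + 1) % 2 = 1 := by omega
      have e2 : (2 * h + 1) / 2 = h := by omega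
      rw [e1, e2, ← hσ, hσ1]
      have : τ ((h : ZMod m) + 1) = (h : ZMod m) := by
        have := hτc (h + 1)
        push_cast at this
        rw [this, ← hq]
        push_cast
        ring
      rw [this]
  have hq1 : ((r : ℕ) : ZMod m) = c := by
    rw [hr, ZMod.natCast_zmod_val]
  have hq2 : ((r + m : ℕ) : ZMod m) = c := by
    push_cast
    rw [hq1]
    simp
  have hmem : ∀ (q : ℕ) (w : List A), w = W s (N + q % 2) ((q / 2 : ℕ) : ZMod m) →
      w ∈ L ∧ (w.length = N ∨ w.length = N + 1) ∧ w.take N = W s N ((q / 2 : ℕ) : ZMod m) := by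
    intro q w hw
    have h2 : q % 2 = 0 ∨ q % 2 = 1 := by omega
    refine ⟨?_, ?_, ?_⟩
    · rw [hw]
      exact W_mem hL s hW _ (by omega) _
    · rw [hw, W_length]
      omega
    · rw [hw]
      rcases h2 with h2 | h2
      · rw [h2, Nat.add_zero, List.take_of_length_le (W_length s N _).le]
      · rw [h2, W_succ', List.take_append_of_le_length (W_length s N _).ge,
          List.take_of_length_le (W_length s N _).le]
  refine ⟨W s (N + r % 2) ((r / 2 : ℕ) : ZMod m),
    W s (N + (r + m) % 2) (((r + m) / 2 : ℕ) : ZMod m), ?_, ?_⟩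
  · intro heq
    have hl := congrArg List.length heq
    rw [W_length, W_length] at hl
    have ht := congrArg (List.take N) heq
    rw [(hmem r _ rfl).2.2, (hmem (r + m) _ rfl).2.2] at ht
    have hi := hinj _ _ ht
    have hm2 : m % 2 = 0 := by omega
    have e : (r + m) / 2 = r / 2 + m / 2 := by omega
    rw [e] at hi
    push_cast at hi
    have h0 : ((m / 2 : ℕ) : ZMod m) = 0 := by
      have : ((r / 2 : ℕ) : ZMod m) + ((m / 2 : ℕ) : ZMod m) = ((r / 2 : ℕ) : ZMod m) + 0 := by
        rw [add_zero]; exact hi.symm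
      exact add_left_cancel this
    rw [ZMod.natCast_eq_zero_iff] at h0
    have := Nat.le_of_dvd (by omega) h0
    omega
  · rintro w (hw | hw)
    · refine ⟨(hmem r w hw).1, ?_, (hmem r w hw).2.1, _, (hmem r w hw).2.2⟩
      rw [hw]
      exact hpal r hq1
    · refine ⟨(hmem (r + m) w hw).1, ?_, (hmem (r + m) w hw).2.1, _, (hmem (r + m) w hw).2.2⟩
      rw [hw]
      exact hpal (r + m) hq2

end Pool.Agent.KS6_71.PC
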