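import Pool.Agent.KS6_71.PC.Graph

/-!
# The lower bound `PC(n) + PC(n+1) ≥ min(k+1, 4)`
-/

open Finset

namespace Pool.Agent.KS6_71.PC

variable {A : Type*}

lemma words_finite [Fintype A] (L : Set (List A)) (N : ℕ) :
    {w : List A | w ∈ L ∧ w.length = N}.Finite :=
  (List.finite_length_eq A N).subset fun _ hw => hw.2

lemma pal_finite [Fintype A] (L : Set (List A)) (N : ℕ) :
    {w : List A | w ∈ L ∧ w.length = N ∧ w.reverse = w}.Finite :=
  (List.finite_length_eq A N).subset fun _ hw => hw.2.1

/-- From every word of length `N` one reaches two palindromes. -/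
theorem reach_two [LinearOrder A] [Fintype A] {L : Set (List A)} (hL : IsLanguage L)
    (hA : Anti L) {N : ℕ} (hN : 0 < N) (u : List A) (hu : u ∈ L) (hun : u.length = N) :
    ∃ w₁ w₂ : List A, w₁ ≠ w₂ ∧ (∀ w, (w = w₁ ∨ w = w₂) → w ∈ L ∧ w.reverse = w ∧
      (w.length = N ∨ w.length = N + 1) ∧ Reach L u (w.take N)) := by
  classical
  let V := {w : List A // w ∈ L ∧ w.length = N}
  have : Finite V := (words_finite L N).to_subtype
  have hf : ∀ w : V, ∃ w' : V, Step L w.1 w'.1 := by
    rintro ⟨w, hw, hwl⟩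
    obtain ⟨b, hb⟩ := hL.right w hw
    obtain ⟨a, t, rfl⟩ : ∃ a t, w = a :: t := by
      cases w with
      | nil => simp at hwl; omega
      | cons a t => exact ⟨a, t, rfl⟩
    refine ⟨⟨t ++ [b], hL.tail a _ (by simpa using hb), by simp at hwl ⊢; omega⟩, a, t, b, rfl, rfl,
      by simpa using hb⟩
  choose f hf using hf
  have hreach : ∀ (w : V) (n : ℕ), Reach L w.1 (f^[n] w).1 := by
    intro w n
    induction n with
    | zero => exact Relation.ReflTransGen.refl
    | succ n ih =>
      rw [Function.iterate_succ_apply']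
      exact ih.tail (hf _)
  let u' : V := ⟨u, hu, hun⟩
  obtain ⟨i, j, hij, hfij⟩ := Finite.exists_ne_map_eq_of_infinite (fun n : ℕ => f^[n] u')
  obtain ⟨p0, hp0, d, hd, hper⟩ : ∃ p0 : V, Reach L u p0.1 ∧ ∃ d, 0 < d ∧ f^[d] p0 = p0 := by
    rcases lt_or_gt_of_ne hij with h | h
    · refine ⟨f^[i] u', hreach u' i, j - i, by omega, ?_⟩
      rw [← Function.iterate_add_apply, show j - i + i = j by omega]
      exact hfij.symm
    · refine ⟨f^[j] u', hreach u' j, i - j, by omega, ?_⟩
      rw [← Function.iterate_add_apply, show i - j + j = i by omega]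
      exact hfij
  have hmem : p0 ∈ Function.periodicPts f := ⟨d, hd, hper⟩
  set m := Function.minimalPeriod f p0 with hm
  have hmpos : 0 < m := Function.minimalPeriod_pos_of_mem_periodicPts hmem
  have : NeZero m := ⟨hmpos.ne'⟩
  let p : ZMod m → List A := fun i => (f^[i.val] p0).1
  have hpl : ∀ i, (p i).length = N := fun i => (f^[i.val] p0).2.2
  have hps : ∀ i, Step L (p i) (p (i + 1)) := by
    intro i
    have e1 : (i + 1 : ZMod m) = ((i.val + 1 : ℕ) : ZMod m) := by
      push_cast
      rw [ZMod.natCast_zmod_val]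
    have e2 : f^[(i + 1 : ZMod m).val] p0 = f (f^[i.val] p0) := by
      have e3 : ∀ q : ℕ, f^[q % m] p0 = f^[q] p0 := fun q =>
        Function.iterate_mod_minimalPeriod_eq
      rw [e1, ZMod.val_natCast, e3, Function.iterate_succ_apply']
    simp only [p]
    rw [e2]
    exact hf _
  obtain ⟨s, hs1, hs2⟩ := windows_of_steps p hpl hps
  have hinj : ∀ i j, W s N i = W s N j → i = j := by
    intro i j h
    rw [hs1, hs1] at h
    have h2 : f^[i.val] p0 = f^[j.val] p0 := Subtype.ext h
    have h3 := (Function.iterate_eq_iterate_iff_of_lt_minimalPeriod (ZMod.val_lt i)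
      (ZMod.val_lt j)).1 h2
    exact ZMod.val_injective m h3
  obtain ⟨w₁, w₂, hne, hw⟩ := two_palindromes hL hA s hs2 hinj
  refine ⟨w₁, w₂, hne, fun w hw' => ?_⟩
  obtain ⟨h1, h2, h3, i, hi⟩ := hw w hw'
  refine ⟨h1, h2, h3, ?_⟩
  rw [hi, hs1]
  exact hp0.trans (hreach p0 i.val)

/-- the reversed language -/
def rev (L : Set (List A)) : Set (List A) := {w | w.reverse ∈ L}

lemma rev_isLanguage {L : Set (List A)} (hL : IsLanguage L) : IsLanguage (rev L) where
  nil := by simpa [rev] using hL.nil
  letter a := by simpa [rev] using hL.letter a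
  tail a w h := by
    simp only [rev, Set.mem_ofPred_eq, List.reverse_cons] at h ⊢
    exact hL.init _ _ h
  init w b h := by
    simp only [rev, Set.mem_ofPred_eq, List.reverse_append, List.reverse_cons, List.reverse_nil,
      List.nil_append, List.singleton_append] at h ⊢
    exact hL.tail _ _ h
  left w h := by
    obtain ⟨b, hb⟩ := hL.right _ h
    exact ⟨b, by simpa [rev] using hb⟩
  right w h := by
    obtain ⟨a, ha⟩ := hL.left _ h
    exact ⟨a, by simpa [rev] using ha⟩

lemma rev_anti [LinearOrder A] {L : Set (List A)} (hA : Anti L) : Anti (rev L) := by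
  intro v x x' y y' h h' hx
  simp only [rev, Set.mem_ofPred_eq, List.reverse_append, List.reverse_cons, List.reverse_nil,
    List.nil_append, List.singleton_append] at h h'
  by_contra hcon
  push Not at hcon
  have := hA v.reverse y y' x x' (by simpa using h) (by simpa using h') hcon
  exact absurd hx (not_lt.2 this)

lemma rev_step {L : Set (List A)} {u v : List A} (h : Step (rev L) u v) :
    Step L v.reverse u.reverse := by
  obtain ⟨a, t, b, rfl, rfl, h⟩ := h
  refine ⟨b, t.reverse, a, by simp, by simp, ?_⟩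
  simpa [rev] using h

lemma rev_reach {L : Set (List A)} {u v : List A} (h : Reach (rev L) u v) :
    Reach L v.reverse u.reverse := by
  induction h with
  | refl => exact Relation.ReflTransGen.refl
  | tail _ hs ih => exact Relation.ReflTransGen.head (rev_step hs) ih

/-- To every word of length `N` lead two palindromes. -/
theorem coreach_two [LinearOrder A] [Fintype A] {L : Set (List A)} (hL : IsLanguage L)
    (hA : Anti L) {N : ℕ} (hN : 0 < N) (v : List A) (hv : v ∈ L) (hvn : v.length = N) :
    ∃ w₁ w₂ : List A, w₁ ≠ w₂ ∧ (∀ w, (w = w₁ ∨ w = w₂) → w ∈ L ∧ w.reverse = w ∧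
      (w.length = N ∨ w.length = N + 1) ∧ Reach L (w.take N) v) := by
  obtain ⟨w₁, w₂, hne, hw⟩ := reach_two (rev_isLanguage hL) (rev_anti hA) hN v.reverse
    (by simpa [rev] using hv) (by simpa using hvn)
  refine ⟨w₁, w₂, hne, fun w hw' => ?_⟩
  obtain ⟨h1, h2, h3, h4⟩ := hw w hw'
  have h1' : w ∈ L := by
    have : w.reverse ∈ L := h1
    rwa [h2] at this
  refine ⟨h1', h2, h3, ?_⟩
  have h5 := rev_reach h4
  rw [List.reverse_reverse] at h5
  rcases h3 with h3 | h3
  · rw [List.take_of_length_le h3.le, h2] at h5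
    rwa [List.take_of_length_le h3.le]
  · refine Relation.ReflTransGen.head ?_ h5
    rcases w with _ | ⟨a, t⟩
    · simp at h3
    rcases List.eq_nil_or_concat' t with rfl | ⟨t', b, rfl⟩
    · simp at h3
      omega
    simp only [List.length_cons, List.length_append, List.length_nil] at h3
    have e1 : (a :: (t' ++ [b])).take N = a :: t' := by
      rw [← List.cons_append, List.take_append_of_le_length (by simp; omega),
        List.take_of_length_le (by simp; omega)]
    have e2 : (a :: t').reverse = t' ++ [b] := by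
      have h6 : b :: (a :: t').reverse = a :: (t' ++ [b]) := by
        rw [← h2]
        simp
      rw [List.cons.injEq] at h6
      exact h6.2
    rw [e1, e2]
    exact ⟨a, t', b, rfl, rfl, h1'⟩

/-- If the Rauzy graph of order `N ≥ 1` is not strongly connected, there are at least four
palindromes of lengths `N`, `N + 1`. -/
theorem four_palindromes [LinearOrder A] [Fintype A] {L : Set (List A)} (hL : IsLanguage L)
    (hA : Anti L) {N : ℕ} (hN : 0 < N) (u v : List A) (hu : u ∈ L) (hun : u.length = N)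
    (hv : v ∈ L) (hvn : v.length = N) (huv : ¬ Reach L u v) : 4 ≤ PC L N + PC L (N + 1) := by
  classical
  obtain ⟨w₁, w₂, h12, hw⟩ := reach_two hL hA hN u hu hun
  obtain ⟨w₃, w₄, h34, hw'⟩ := coreach_two hL hA hN v hv hvn
  have hne : ∀ w w', (w = w₁ ∨ w = w₂) → (w' = w₃ ∨ w' = w₄) → w ≠ w' := by
    rintro w w' h h' rfl
    exact huv ((hw w h).2.2.2.trans (hw' w h').2.2.2)
  have hsub : ({w₁, w₂, w₃, w₄} : Finset (List A)) ⊆
      (pal_finite L N).toFinset ∪ (pal_finite L (N + 1)).toFinset := by
    intro w hwm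
    simp only [Finset.mem_insert, Finset.mem_singleton] at hwm
    simp only [Finset.mem_union, Set.Finite.mem_toFinset, Set.mem_ofPred_eq]
    have : w ∈ L ∧ w.reverse = w ∧ (w.length = N ∨ w.length = N + 1) := by
      rcases hwm with h | h | h | h
      · exact ⟨(hw w (Or.inl h)).1, (hw w (Or.inl h)).2.1, (hw w (Or.inl h)).2.2.1⟩
      · exact ⟨(hw w (Or.inr h)).1, (hw w (Or.inr h)).2.1, (hw w (Or.inr h)).2.2.1⟩
      · exact ⟨(hw' w (Or.inl h)).1, (hw' w (Or.inl h)).2.1, (hw' w (Or.inl h)).2.2.1⟩
      · exact ⟨(hw' w (Or.inr h)).1, (hw' w (Or.inr h)).2.1, (hw' w (Or.inr h)).2.2.1⟩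
    rcases this with ⟨h1, h2, h3 | h3⟩
    · exact Or.inl ⟨h1, h3, h2⟩
    · exact Or.inr ⟨h1, h3, h2⟩
  have hcard : ({w₁, w₂, w₃, w₄} : Finset (List A)).card = 4 := by
    have a1 := hne w₁ w₃ (Or.inl rfl) (Or.inl rfl)
    have a2 := hne w₁ w₄ (Or.inl rfl) (Or.inr rfl)
    have a3 := hne w₂ w₃ (Or.inr rfl) (Or.inl rfl)
    have a4 := hne w₂ w₄ (Or.inr rfl) (Or.inr rfl)
    rw [Finset.card_insert_of_notMem, Finset.card_insert_of_notMem,
      Finset.card_insert_of_notMem, Finset.card_singleton]
    · simpa using h34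
    · simp [a3, a4]
    · simp [h12, a1, a2]
  have h1 := Finset.card_le_card hsub
  rw [hcard] at h1
  have h2 := Finset.card_union_le (pal_finite L N).toFinset (pal_finite L (N + 1)).toFinset
  unfold PC
  rw [Set.ncard_eq_toFinset_card _ (pal_finite L N),
    Set.ncard_eq_toFinset_card _ (pal_finite L (N + 1))]
  omega

end Pool.Agent.KS6_71.PC
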