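import Pool.Agent.KS6_71.PC.Lower

/-!
# The strongly connected case, and the upper bounds
-/

open Finset

namespace Pool.Agent.KS6_71.PC

variable {A : Type*}

lemma path_of_reach {L : Set (List A)} {u v : List A} (h : Reach L u v) :
    ∃ (l : ℕ) (q : ℕ → List A), q 0 = u ∧ q l = v ∧ ∀ i < l, Step L (q i) (q (i + 1)) := by
  induction h with
  | refl => exact ⟨0, fun _ => u, rfl, rfl, fun i hi => absurd hi (by omega)⟩
  | @tail b c _ hs ih =>
    obtain ⟨l, q, h0, hl, hq⟩ := ih
    refine ⟨l + 1, fun i => if i ≤ l then q i else c, by simp [h0], by simp, fun i hi => ?_⟩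
    rcases Nat.lt_or_ge i l with h | h
    · have h1 : i ≤ l := h.le
      have h2 : i + 1 ≤ l := h
      simpa [h1, h2] using hq i h
    · have h1 : i = l := by omega
      subst h1
      simpa [hl] using hs

/-- If `v` leads back to `u`, the word given by the edge `u → v` has its reverse in `L`. -/
theorem reverse_mem_of_reach [LinearOrder A] [Fintype A] {L : Set (List A)} (hL : IsLanguage L)
    (hA : Anti L) {N : ℕ} (a : A) (t : List A) (b : A) (ht : t.length + 1 = N)
    (hmem : a :: (t ++ [b]) ∈ L) (hr : Reach L (t ++ [b]) (a :: t)) :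
    (a :: (t ++ [b])).reverse ∈ L := by
  classical
  obtain ⟨l, q, h0, hl, hq⟩ := path_of_reach hr
  have hlen : ∀ i ≤ l, (q i).length = N := by
    intro i
    induction i with
    | zero => intro _; rw [h0]; simp; omega
    | succ i ih =>
      intro hi
      obtain ⟨a', t', b', e1, e2, _⟩ := hq i (by omega)
      have := ih (by omega)
      rw [e1] at this
      rw [e2]
      simpa using this
  let q' : ℕ → List A := fun i => if i = 0 then a :: t else q (i - 1)
  let p : ZMod (l + 1) → List A := fun i => q' i.val
  have hpl : ∀ i, (p i).length = N := by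
    intro i
    simp only [p, q']
    split_ifs with h
    · simpa using ht
    · have := ZMod.val_lt i
      exact hlen _ (by omega)
  have hstep' : ∀ i ≤ l, Step L (q' i) (q' (i + 1)) := by
    intro i hi
    rcases Nat.eq_zero_or_pos i with rfl | h
    · simp only [q', if_true, Nat.zero_add, Nat.one_ne_zero, if_false, Nat.sub_self, h0]
      exact ⟨a, t, b, rfl, rfl, hmem⟩
    · have h1 : i ≠ 0 := by omega
      simp only [q', h1, if_false, Nat.succ_ne_zero, Nat.add_sub_cancel]
      have := hq (i - 1) (by omega)
      rwa [show i - 1 + 1 = i by omega] at this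
  have hlast : q' (l + 1) = q' 0 := by
    simp [q', hl]
  have hps : ∀ i, Step L (p i) (p (i + 1)) := by
    intro i
    have hi : i.val < l + 1 := ZMod.val_lt i
    have e1 : (i + 1 : ZMod (l + 1)) = ((i.val + 1 : ℕ) : ZMod (l + 1)) := by
      push_cast
      rw [ZMod.natCast_zmod_val]
    have e2 : q' (i + 1 : ZMod (l + 1)).val = q' (i.val + 1) := by
      rw [e1, ZMod.val_natCast]
      rcases Nat.lt_or_ge (i.val + 1) (l + 1) with h | h
      · rw [Nat.mod_eq_of_lt h]
      · have : i.val + 1 = l + 1 := by omega
        rw [this, Nat.mod_self, hlast]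
    change Step L (q' i.val) (q' (i + 1 : ZMod (l + 1)).val)
    rw [e2]
    exact hstep' _ (by omega)
  obtain ⟨s, hs1, hs2⟩ := windows_of_steps p hpl hps
  have hp0 : p 0 = a :: t := by
    simp [p, q']
  have hp1 : p (0 + 1) = t ++ [b] := by
    have e1 : (0 + 1 : ZMod (l + 1)) = ((1 : ℕ) : ZMod (l + 1)) := by push_cast; ring
    change q' (0 + 1 : ZMod (l + 1)).val = _
    rw [e1, ZMod.val_natCast]
    rcases Nat.eq_zero_or_pos l with h | h
    · subst h
      simp only [Nat.zero_add, Nat.mod_self, q', if_true]
      rw [← h0, hl]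
    · rw [Nat.mod_eq_of_lt (by omega)]
      simp [q', h0]
  have hN : 1 ≤ N := by omega
  have hw : W s (N + 1) 0 = a :: (t ++ [b]) := by
    rw [W, hs1, hp1]
    congr 1
    have h1 := hs1 0
    rw [hp0] at h1
    obtain ⟨n, rfl⟩ : ∃ n, N = n + 1 := ⟨N - 1, by omega⟩
    rw [W, List.cons.injEq] at h1
    exact h1.1
  have h1 : occ s (W s (N + 1) 0) ≠ 0 := (occ_ne_zero s _).2 ⟨0, by rw [W_length]⟩
  rw [← occ_reverse hL hA s hs2 (N + 1) le_rfl _ (W_length s (N + 1) 0)] at h1
  obtain ⟨j, hj⟩ := (occ_ne_zero s _).1 h1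
  rw [List.length_reverse, W_length, hw] at hj
  rw [← hj]
  exact hs2 j

/-- a prefix of a word of `L` is in `L` -/
lemma prefix_mem {L : Set (List A)} (hL : IsLanguage L) (u v : List A) (h : u ++ v ∈ L) :
    u ∈ L := by
  induction v using List.reverseRecOn with
  | nil => simpa using h
  | append_singleton v b ih =>
    apply ih
    rw [← List.append_assoc] at h
    exact hL.init _ _ h

lemma suffix_mem {L : Set (List A)} (hL : IsLanguage L) (u v : List A) (h : u ++ v ∈ L) :
    v ∈ L := by
  induction u with
  | nil => simpa using h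
  | cons a u ih => exact ih (hL.tail _ _ h)

/-- extend a word to the right to any length -/
lemma extend_right {L : Set (List A)} (hL : IsLanguage L) (w : List A) (hw : w ∈ L) (n : ℕ) :
    ∃ t : List A, t.length = n ∧ w ++ t ∈ L := by
  induction n with
  | zero => exact ⟨[], rfl, by simpa using hw⟩
  | succ n ih =>
    obtain ⟨t, ht, hwt⟩ := ih
    obtain ⟨b, hb⟩ := hL.right _ hwt
    exact ⟨t ++ [b], by simp [ht], by simpa using hb⟩

/-- If the Rauzy graph of order `N` is strongly connected, then `L` is closed under reversal up to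
length `N + 1`. -/
theorem closed_of_strong [LinearOrder A] [Fintype A] {L : Set (List A)} (hL : IsLanguage L)
    (hA : Anti L) {N : ℕ} (hN : 0 < N)
    (hstr : ∀ u v, u ∈ L → u.length = N → v ∈ L → v.length = N → Reach L u v)
    (w : List A) (hw : w ∈ L) (hwl : w.length ≤ N + 1) : w.reverse ∈ L := by
  obtain ⟨t, ht, hwt⟩ := extend_right hL w hw (N + 1 - w.length)
  have hlen : (w ++ t).length = N + 1 := by simp; omega
  have hrev : (w ++ t).reverse ∈ L := by
    rcases hc : w ++ t with _ | ⟨a, r⟩
    · rw [hc] at hlen; simp at hlen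
    rcases List.eq_nil_or_concat' r with rfl | ⟨r', b, rfl⟩
    · rw [hc] at hlen
      simp at hlen
      omega
    rw [hc] at hlen hwt
    simp only [List.length_cons, List.length_append, List.length_nil] at hlen
    refine reverse_mem_of_reach hL hA (N := N) a r' b (by omega) hwt ?_
    refine hstr _ _ (hL.tail _ _ hwt) (by simp; omega) ?_ (by simp; omega)
    have : (a :: r') ++ [b] ∈ L := by simpa using hwt
    exact hL.init _ _ this
  rw [List.reverse_append] at hrev
  exact suffix_mem hL _ _ hrev

/-- `x` and `y` are adjacent: no letter in between. -/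
def NoConn [LinearOrder A] (L : Set (List A)) : Prop :=
  ∀ w a a', a < a' → (∀ c, ¬ (a < c ∧ c < a')) → a :: w ++ [a'] ∈ L → a' :: w ++ [a] ∈ L →
    a :: w ++ [a] ∈ L ∨ a' :: w ++ [a'] ∈ L

lemma convex_left [LinearOrder A] {L : Set (List A)} (hL : IsLanguage L) (hA : Anti L) :
    ∀ (w : List A) (x y z : A), x < y → y < z → x :: w ∈ L → z :: w ∈ L → y :: w ∈ L := by
  intro w
  induction w using List.reverseRecOn with
  | nil => intro x y z _ _ _ _; exact hL.letter y
  | append_singleton w b ih =>
    intro x y z hxy hyz hx hz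
    have hy : y :: w ∈ L := ih x y z hxy hyz
      (hL.init (x :: w) b (by simpa using hx)) (hL.init (z :: w) b (by simpa using hz))
    obtain ⟨c, hc⟩ := hL.right _ hy
    have h1 : c ≤ b := hA w x y b c (by simpa using hx) (by simpa using hc) hxy
    have h2 : b ≤ c := hA w y z c b (by simpa using hc) (by simpa using hz) hyz
    have : c = b := le_antisymm h1 h2
    subst this
    simpa using hc

/-- If `w` is in `L` and has the same left and right extensions, then it has a palindromic
extension. -/
theorem pal_extension [LinearOrder A] [Fintype A] {L : Set (List A)} (hL : IsLanguage L)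
    (hA : Anti L) (hC : NoConn L) (w : List A) (hw : w ∈ L)
    (hLR : ∀ x, x :: w ∈ L ↔ w ++ [x] ∈ L) : ∃ a, a :: w ++ [a] ∈ L := by
  classical
  by_contra hcon
  push Not at hcon
  -- `X` is the set of left extensions `x` having a right partner larger than `x`
  let X : Finset A := Finset.univ.filter fun x => ∃ y, x < y ∧ x :: w ++ [y] ∈ L
  -- the smallest left extension is in `X`
  let I : Finset A := Finset.univ.filter fun x => x :: w ∈ L
  have hI : I.Nonempty := by
    obtain ⟨a, ha⟩ := hL.left w hw
    exact ⟨a, by simpa [I] using ha⟩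
  have hleft : ∀ x y, x :: w ++ [y] ∈ L → x :: w ∈ L := fun x y h => hL.init (x :: w) y h
  have hright : ∀ x y, x :: w ++ [y] ∈ L → w ++ [y] ∈ L := fun x y h => hL.tail x _ h
  have hXne : X.Nonempty := by
    refine ⟨I.min' hI, ?_⟩
    have h0 : (I.min' hI) :: w ∈ L := by
      have := I.min'_mem hI
      simpa [I] using this
    obtain ⟨y, hy⟩ := hL.right _ h0
    have hy' : y :: w ∈ L := (hLR y).2 (hright _ _ hy)
    have h1 : I.min' hI ≤ y := I.min'_le y (by simpa [I] using hy')
    have h2 : I.min' hI ≠ y := by
      intro h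
      apply hcon y
      rw [h] at hy
      exact hy
    simp only [X, Finset.mem_filter, Finset.mem_univ, true_and]
    exact ⟨y, lt_of_le_of_ne h1 h2, hy⟩
  set a := X.max' hXne with ha
  obtain ⟨y, hay, hwy⟩ : ∃ y, a < y ∧ a :: w ++ [y] ∈ L :=
    (Finset.mem_filter.1 (X.max'_mem hXne)).2
  have hamax : ∀ x y, x < y → x :: w ++ [y] ∈ L → x ≤ a := by
    intro x y h h'
    exact X.le_max' x (by simp only [X, Finset.mem_filter, Finset.mem_univ, true_and]; exact ⟨y, h, h'⟩)
  -- the successor of `a`
  let S : Finset A := Finset.univ.filter fun x => a < x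
  have hS : S.Nonempty := ⟨y, by simpa [S] using hay⟩
  set a' := S.min' hS with ha'
  have haa' : a < a' := (Finset.mem_filter.1 (S.min'_mem hS)).2
  have hadj : ∀ c, ¬ (a < c ∧ c < a') := by
    rintro c ⟨h1, h2⟩
    have := S.min'_le c (by simpa [S] using h1)
    exact absurd h2 (not_lt.2 this)
  have ha'y : a' ≤ y := S.min'_le y (by simpa [S] using hay)
  have haw : a :: w ∈ L := hleft _ _ hwy
  have hyw : y :: w ∈ L := (hLR y).2 (hright _ _ hwy)
  have ha'w : a' :: w ∈ L := by
    rcases eq_or_lt_of_le ha'y with h | h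
    · rw [h]; exact hyw
    · exact convex_left hL hA w a a' y haa' h haw hyw
  -- a right partner of `a'`
  obtain ⟨z, hz⟩ := hL.right _ ha'w
  have hza' : z < a' := by
    rcases lt_trichotomy z a' with h | h | h
    · exact h
    · rw [h] at hz
      exact absurd hz (hcon a')
    · exact absurd (hamax a' z h hz) (not_le.2 haa')
  have hza : z ≤ a := by
    by_contra hc
    exact hadj z ⟨not_le.1 hc, hza'⟩
  -- a left partner of `a'`
  obtain ⟨x, hx⟩ : ∃ x, x :: w ++ [a'] ∈ L := by
    have := (hLR a').1 ha'w
    obtain ⟨x, hx⟩ := hL.left _ this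
    exact ⟨x, by simpa using hx⟩
  have hxa : x ≤ a := by
    rcases lt_trichotomy x a' with h | h | h
    · by_contra hc
      exact hadj x ⟨not_le.1 hc, h⟩
    · rw [h] at hx
      exact absurd hx (hcon a')
    · have := hA w a' x z a' hz hx h
      exact absurd hza' (not_lt.2 this)
  -- `(a, a')` is in the extension set
  have h1 : a :: w ++ [a'] ∈ L := by
    rcases eq_or_lt_of_le hxa with h | h
    · rw [← h]; exact hx
    · have h2 : y ≤ a' := hA w x a a' y hx hwy h
      have h3 : a' = y := le_antisymm ha'y h2
      rw [h3]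
      exact hwy
  -- a left partner of `a`
  have h2 : a' :: w ++ [a] ∈ L := by
    rcases eq_or_lt_of_le hza with h | h
    · rw [← h]; exact hz
    · obtain ⟨x₂, hx₂⟩ : ∃ x, x :: w ++ [a] ∈ L := by
        have := (hLR a).1 haw
        obtain ⟨x, hx⟩ := hL.left _ this
        exact ⟨x, by simpa using hx⟩
      have e1 : a < x₂ := by
        rcases lt_trichotomy x₂ a with h' | h' | h'
        · have := hA w x₂ a a y hx₂ hwy h'
          exact absurd hay (not_lt.2 this)
        · rw [h'] at hx₂
          exact absurd hx₂ (hcon a)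
        · exact h'
      have e2 : a' ≤ x₂ := by
        by_contra hc
        exact hadj x₂ ⟨e1, not_le.1 hc⟩
      rcases eq_or_lt_of_le e2 with h' | h'
      · rw [h']; exact hx₂
      · have := hA w a' x₂ z a hz hx₂ h'
        exact absurd h (not_lt.2 this)
  rcases hC w a a' haa' hadj h1 h2 with h | h
  · exact hcon a h
  · exact hcon a' h

/-- In the strongly connected case the palindromes extend. -/
theorem PC_mono_of_closed [LinearOrder A] [Fintype A] {L : Set (List A)} (hL : IsLanguage L)
    (hA : Anti L) (hC : NoConn L) {N : ℕ} (hcl : ∀ w ∈ L, w.length ≤ N + 1 → w.reverse ∈ L)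
    (n : ℕ) (hn : n + 2 ≤ N + 1) : PC L n ≤ PC L (n + 2) := by
  classical
  have hex : ∀ w : List A, w ∈ L ∧ w.length = n ∧ w.reverse = w → ∃ a, a :: w ++ [a] ∈ L := by
    rintro w ⟨hw, hwl, hwr⟩
    apply pal_extension hL hA hC w hw
    intro x
    constructor
    · intro h
      have := hcl _ h (by simp; omega)
      simpa [hwr] using this
    · intro h
      have := hcl _ h (by simp; omega)
      simpa [hwr] using this
  unfold PC
  have : ∃ f : List A → List A, ∀ w, (w ∈ L ∧ w.length = n ∧ w.reverse = w) →
      ∃ a, f w = a :: w ++ [a] ∧ a :: w ++ [a] ∈ L := by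
    refine ⟨fun w => if h : (w ∈ L ∧ w.length = n ∧ w.reverse = w) then
      (hex w h).choose :: w ++ [(hex w h).choose] else [], fun w hw => ?_⟩
    refine ⟨(hex w hw).choose, ?_, (hex w hw).choose_spec⟩
    simp only [dif_pos hw]
  obtain ⟨f, hf⟩ := this
  refine Set.ncard_le_ncard_of_injOn f ?_ ?_ (pal_finite L (n + 2))
  · intro w hw
    obtain ⟨a, h1, h2⟩ := hf w hw
    obtain ⟨hw1, hw2, hw3⟩ := hw
    refine ⟨by rw [h1]; exact h2, by rw [h1]; simp; omega, by rw [h1]; simp [hw3]⟩
  · intro w hw w' hw' hff
    obtain ⟨a, h1, _⟩ := hf w hw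
    obtain ⟨a', h1', _⟩ := hf w' hw'
    rw [h1, h1'] at hff
    simp only [List.cons_append, List.cons.injEq] at hff
    exact (List.append_inj' hff.2 rfl).1

/-- Each palindrome has at most one palindromic extension. -/
theorem PC_anti [LinearOrder A] [Fintype A] {L : Set (List A)} (hL : IsLanguage L)
    (hA : Anti L) (n : ℕ) : PC L (n + 2) ≤ PC L n := by
  classical
  unfold PC
  refine Set.ncard_le_ncard_of_injOn (fun w => w.tail.dropLast) ?_ ?_ (pal_finite L n)
  · rintro w ⟨hw, hwl, hwr⟩
    rcases w with _ | ⟨a, t⟩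
    · simp at hwl
    rcases List.eq_nil_or_concat' t with rfl | ⟨t', b, rfl⟩
    · simp at hwl
    simp only [List.tail_cons, List.dropLast_concat]
    simp only [List.length_cons, List.length_append, List.length_nil] at hwl
    refine ⟨hL.init _ _ (hL.tail _ _ hw), by omega, ?_⟩
    simp only [List.reverse_cons, List.reverse_append, List.reverse_nil, List.nil_append,
      List.cons_append, List.cons.injEq] at hwr
    exact (List.append_inj' hwr.2 rfl).1
  · rintro w ⟨hw, hwl, hwr⟩ w' ⟨hw', hwl', hwr'⟩ heq
    have key : ∀ w : List A, w.length = n + 2 → w.reverse = w →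
        ∃ a, w = a :: (w.tail.dropLast ++ [a]) := by
      intro w hwl hwr
      rcases w with _ | ⟨a, t⟩
      · simp at hwl
      rcases List.eq_nil_or_concat' t with rfl | ⟨t', b, rfl⟩
      · simp at hwl
      simp only [List.tail_cons, List.dropLast_concat]
      simp only [List.reverse_cons, List.reverse_append, List.reverse_nil, List.nil_append,
        List.cons_append, List.cons.injEq] at hwr
      exact ⟨a, by rw [hwr.1]⟩
    obtain ⟨a, ha⟩ := key w hwl hwr
    obtain ⟨a', ha'⟩ := key w' hwl' hwr'
    simp only at heq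
    rw [← heq] at ha'
    have hva : a :: w.tail.dropLast ++ [a] ∈ L := by
      rw [List.cons_append, ← ha]; exact hw
    have hva' : a' :: w.tail.dropLast ++ [a'] ∈ L := by
      rw [List.cons_append, ← ha']; exact hw'
    have : a = a' := by
      rcases lt_trichotomy a a' with h | h | h
      · exact absurd h (not_lt.2 (hA _ _ _ _ _ hva hva' h))
      · exact h
      · exact absurd h (not_lt.2 (hA _ _ _ _ _ hva' hva h))
    rw [ha, ha', this]

end Pool.Agent.KS6_71.PC
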